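import Pool.Agent.K4H46.QS.Fl

/-!
# Bases of eigenfunctions
-/

set_option autoImplicit false

open Set Filter Topology MeasureTheory
open scoped Real ContDiff

noncomputable section

namespace Pool.Agent.K4H46.QS

open Pool.Agent.Y262.QE Pool.Agent.Y264.QR Pool.Agent.Y708.QE Pool.Agent.Y986.QE

section

variable {M : Type} [MetricSpace M] [CompactSpace M] [MeasurableSpace M] [BorelSpace M]
  {μ : Measure M} {D : Data M}

lemma nsqR (g : Lp ℝ 2 μ) : ‖g‖ ^ 2 = ∫ x, (g x) ^ 2 ∂μ := Pool.Agent.Y264.QR.nsq μ g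

lemma nsqC (g : Lp ℂ 2 μ) : ‖g‖ ^ 2 = ∫ x, ‖g x‖ ^ 2 ∂μ := by
  rw [← real_inner_self_eq_norm_sq, nsq]

theorem vec (hD : D.IsSurf μ) {u : M → ℝ} {G : M → ℂ} (H : IsGrad D μ u G) :
    ∃ v ∈ HF D μ, (v.fst : M → ℝ) =ᵐ[μ] u ∧ (v.snd : M → ℂ) =ᵐ[μ] G := by
  obtain ⟨hu, hG, F, hF, h1, h2⟩ := H
  obtain ⟨hD1, -⟩ := tDenF M μ D hD
  choose f hfH hf1 hf2 using fun k => hD1 (F k) (hF k)
  have c1 : Tendsto (fun k => (f k).fst) atTop (𝓝 (hu.toLp u)) := by
    rw [tendsto_iff_norm_sub_tendsto_zero]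
    have h3 : Tendsto (fun k => ‖(f k).fst - hu.toLp u‖ ^ 2) atTop (𝓝 0) := by
      refine h1.congr fun k => ?_
      rw [nsqR]
      refine integral_congr_ae ?_
      filter_upwards [hf1 k, hu.coeFn_toLp, Lp.coeFn_sub (f k).fst (hu.toLp u)] with x a1 a2 a3
      rw [a3, Pi.sub_apply, a1, a2]
    have h4 := h3.sqrt
    simpa [Real.sqrt_sq (norm_nonneg _)] using h4
  have c2 : Tendsto (fun k => (f k).snd) atTop (𝓝 (hG.toLp G)) := by
    rw [tendsto_iff_norm_sub_tendsto_zero]
    have h3 : Tendsto (fun k => ‖(f k).snd - hG.toLp G‖ ^ 2) atTop (𝓝 0) := by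
      refine h2.congr fun k => ?_
      rw [nsqC]
      refine integral_congr_ae ?_
      filter_upwards [hf2 k, hG.coeFn_toLp, Lp.coeFn_sub (f k).snd (hG.toLp G)] with x a1 a2 a3
      rw [a3, Pi.sub_apply, a1, a2]
    have h4 := h3.sqrt
    simpa [Real.sqrt_sq (norm_nonneg _)] using h4
  refine ⟨WithLp.toLp 2 (hu.toLp u, hG.toLp G), ?_, hu.coeFn_toLp, hG.coeFn_toLp⟩
  have hlim : Tendsto f atTop (𝓝 (WithLp.toLp 2 (hu.toLp u, hG.toLp G))) := by
    have h3 := ((WithLp.prod_continuous_toLp 2 (Lp ℝ 2 μ) (Lp ℂ 2 μ)).tendsto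
      (hu.toLp u, hG.toLp G)).comp (c1.prodMk_nhds c2)
    exact h3
  exact (Submodule.isClosed_topologicalClosure _).mem_of_tendsto hlim (Eventually.of_forall hfH)

theorem vec' (hD : D.IsSurf μ) {v : WithLp 2 (Lp ℝ 2 μ × Lp ℂ 2 μ)} (hv : v ∈ HF D μ) :
    IsGrad D μ (v.fst : M → ℝ) (v.snd : M → ℂ) := by
  obtain ⟨-, hD2⟩ := tDenF M μ D hD
  obtain ⟨F, f, hf, hlim⟩ := hD2 v hv
  refine ⟨Lp.memLp _, Lp.memLp _, F, fun k => (hf k).1, ?_, ?_⟩
  · have h1 : Tendsto (fun k => ‖(f k).fst - v.fst‖ ^ 2) atTop (𝓝 0) := by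
      have h2 := ((WithLp.continuous_fst 2 (Lp ℝ 2 μ) (Lp ℂ 2 μ)).tendsto v).comp hlim
      have h3 := (tendsto_iff_norm_sub_tendsto_zero.1 h2).pow 2
      simpa using h3
    refine h1.congr fun k => ?_
    rw [nsqR]
    refine integral_congr_ae ?_
    filter_upwards [(hf k).2.2.1, Lp.coeFn_sub (f k).fst v.fst] with x a1 a3
    rw [a3, Pi.sub_apply, a1]
  · have h1 : Tendsto (fun k => ‖(f k).snd - v.snd‖ ^ 2) atTop (𝓝 0) := by
      have h2 := ((WithLp.continuous_snd 2 (Lp ℝ 2 μ) (Lp ℂ 2 μ)).tendsto v).comp hlim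
      have h3 := (tendsto_iff_norm_sub_tendsto_zero.1 h2).pow 2
      simpa using h3
    refine h1.congr fun k => ?_
    rw [nsqC]
    refine integral_congr_ae ?_
    filter_upwards [(hf k).2.2.2, Lp.coeFn_sub (f k).snd v.snd] with x a1 a3
    rw [a3, Pi.sub_apply, a1]

theorem exp_bd (φ : C(M, ℝ)) (x : M) : Real.exp (-‖φ‖) ≤ Real.exp (φ x) ∧
    ‖Real.exp (φ x)‖ ≤ Real.exp ‖φ‖ := by
  have h1 := φ.norm_coe_le_norm x
  rw [Real.norm_eq_abs] at h1
  obtain ⟨h2, h3⟩ := abs_le.1 h1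
  refine ⟨Real.exp_le_exp.2 h2, ?_⟩
  rw [Real.norm_eq_abs, Real.abs_exp]
  exact Real.exp_le_exp.2 h3

/-- eigenfunctions are eigenvectors of the forms -/
theorem toEg (hD : D.IsSurf μ) {i a b} (hp : Pk D μ i a b) (φ : C(M, ℝ)) {u : ℕ → M → ℝ}
    {G : ℕ → M → ℂ} {lam : ℕ → ℝ} (H : IsBasis D μ (fun x => Real.exp (φ x)) u G lam) :
    ∃ e : ℕ → HF D μ, (∀ j, ((e j).1.fst : M → ℝ) =ᵐ[μ] u j ∧
      ((e j).1.snd : M → ℂ) =ᵐ[μ] G j) ∧ Eg a (b φ) e lam := by
  obtain ⟨hfin, -⟩ := tFin M μ D hD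
  obtain ⟨-, hD2⟩ := tDenF M μ D hD
  set w : M → ℝ := fun x => Real.exp (φ x) with hwdef
  have hw : Continuous w := Real.continuous_exp.comp φ.continuous
  have hp0 : ∀ x, 0 < w x := fun x => Real.exp_pos _
  choose v hv huv hGv using fun j => vec hD (H.grad j)
  have hbe : ∀ x y : HF D μ, b φ x y =
      ∫ z, w z * ((x.1.fst : M → ℝ) z * (y.1.fst : M → ℝ) z) ∂μ := by
    intro x y
    rw [hp.isB, hp.fst, hp.fst]
  have horth : ∀ j k, b φ ⟨v j, hv j⟩ ⟨v k, hv k⟩ = if j = k then 1 else 0 := by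
    intro j k
    rw [hbe, ← H.orth j k]
    refine integral_congr_ae ?_
    filter_upwards [huv j, huv k] with x hx1 hx2
    show w x * ((v j).fst x * (v k).fst x) = _
    rw [hx1, hx2]
  have hsnd : Continuous (fun x : WithLp 2 (Lp ℝ 2 μ × Lp ℂ 2 μ) => x.snd) :=
    WithLp.continuous_snd 2 _ _
  have hfst : Continuous (fun x : WithLp 2 (Lp ℝ 2 μ × Lp ℂ 2 μ) => x.fst) :=
    WithLp.continuous_fst 2 _ _
  obtain ⟨B, hB⟩ := Pool.Agent.Y469.QE.mul M μ w hw.measurable (Real.exp ‖φ‖)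
    (fun x => (exp_bd φ x).2)
  have heig : ∀ j (y : HF D μ), a ⟨v j, hv j⟩ y = lam j * b φ ⟨v j, hv j⟩ y := by
    intro j y
    rw [hp.snd, hbe]
    show inner ℝ (v j).snd y.1.snd = lam j * ∫ z, w z * ((v j).fst z * y.1.fst z) ∂μ
    obtain ⟨F, g, hF, hlim'⟩ := hD2 y.1 y.2
    have e1 : Tendsto (fun k => inner ℝ (v j).snd (g k).snd) atTop
        (𝓝 (inner ℝ (v j).snd y.1.snd)) := by
      have hcn : Continuous
          (fun x : WithLp 2 (Lp ℝ 2 μ × Lp ℂ 2 μ) => inner ℝ (v j).snd x.snd) :=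
        continuous_const.inner hsnd
      exact (hcn.tendsto y.1).comp hlim'
    have e2 : Tendsto (fun k => lam j * B (v j).fst (g k).fst) atTop
        (𝓝 (lam j * B (v j).fst y.1.fst)) := by
      have hcn : Continuous
          (fun x : WithLp 2 (Lp ℝ 2 μ × Lp ℂ 2 μ) => lam j * B (v j).fst x.fst) :=
        continuous_const.mul ((B (v j).fst).continuous.comp hfst)
      exact (hcn.tendsto y.1).comp hlim'
    have e3 : ∀ k, lam j * B (v j).fst (g k).fst = inner ℝ (v j).snd (g k).snd := by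
      intro k
      have h1 := H.eig j (F k) (hF k).1
      have h2 : inner ℝ (v j).snd (g k).snd = ∫ x, inner ℝ (G j x) (D.gr (F k) x) ∂μ := by
        rw [L2.inner_def]
        refine integral_congr_ae ?_
        filter_upwards [hGv j, (hF k).2.2.2] with x a1 a2
        rw [a1, a2]
      rw [hB, h2, h1]
      congr 1
      refine integral_congr_ae ?_
      filter_upwards [huv j, (hF k).2.2.1] with x a1 a2
      rw [a1, a2]
    simp only [e3] at e2
    rw [tendsto_nhds_unique e1 e2, hB]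
  refine ⟨fun j => ⟨v j, hv j⟩, fun j => ⟨huv j, hGv j⟩, ⟨horth, heig, H.mono,
    Pool.Agent.Y708.QR.tt (hp.fm φ) horth heig H.mono, fun y => ?_⟩⟩
  have hy : MemLp (y.1.fst : M → ℝ) 2 (wm μ w) := memLp_wm hw (Lp.memLp _)
  have h1 := Pool.Agent.Y708.QR.parseval (ν := wm μ w) (u := u)
    (fun j => memLp_wm hw (H.grad j).mem)
    (fun i j => by rw [int_wm hw hp0]; exact H.orth i j)
    (fun f hf h0 => by
      have hf' : MemLp f 2 μ :=
        Pool.Agent.Y708.QR.memLp_of_wm (Real.exp_pos _) (fun x => (exp_bd φ x).1) hf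
      have h2 := H.total f hf' (fun j => by
        have := h0 j
        rw [int_wm hw hp0] at this
        exact this)
      exact (withDensity_absolutelyContinuous μ _).ae_eq h2) hy
  have e1 : ∀ j, (∫ x, (y.1.fst : M → ℝ) x * u j x ∂(wm μ w)) = b φ y ⟨v j, hv j⟩ := by
    intro j
    rw [hbe, int_wm hw hp0]
    refine integral_congr_ae ?_
    filter_upwards [huv j] with x hx1
    show w x * ((y.1.fst : M → ℝ) x * u j x) = w x * ((y.1.fst : M → ℝ) x * (v j).fst x)
    rw [hx1]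
  have e2 : ∫ x, ((y.1.fst : M → ℝ) x) ^ 2 ∂(wm μ w) = b φ y y := by
    rw [hbe, int_wm hw hp0]
    refine integral_congr_ae (Eventually.of_forall fun x => ?_)
    show w x * ((y.1.fst : M → ℝ) x) ^ 2 = w x * ((y.1.fst : M → ℝ) x * (y.1.fst : M → ℝ) x)
    ring
  simp only [e1, e2] at h1
  exact h1

/-- existence of bases of eigenfunctions -/
theorem exBasis [Nonempty M] (hD : D.IsSurf μ) (φ : C(M, ℝ)) :
    ∃ (u : ℕ → M → ℝ) (G : ℕ → M → ℂ) (lam : ℕ → ℝ),
      IsBasis D μ (fun x => Real.exp (φ x)) u G lam := by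
  obtain ⟨hfin, -⟩ := tFin M μ D hD
  obtain ⟨hD1, -⟩ := tDenF M μ D hD
  obtain ⟨i, a, b, hp⟩ := exists_pk hD
  haveI : CompleteSpace (HF D μ) :=
    (Submodule.isClosed_topologicalClosure _).completeSpace_coe
  obtain ⟨e, E, hE⟩ := tSp (HF D μ) a (b φ) (hp.fm φ)
  have hwc : Continuous fun x => Real.exp (φ x) := Real.continuous_exp.comp φ.continuous
  have hi := hp.fst
  have hB := hp.isB
  have hF := hp.fm
  have hcmp := hp.cmp
  refine ⟨fun j => ((e j).1.fst : M → ℝ), fun j => ((e j).1.snd : M → ℂ), E,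
    ⟨fun j => vec' hD (e j).2, ?_, hE.mono, ?_, ?_⟩⟩
  · intro j F hF
    obtain ⟨v, hv, hv1, hv2⟩ := hD1 F hF
    have h1 := hE.eig j ⟨v, hv⟩
    rw [hp.snd, hp.isB, hp.fst, hp.fst] at h1
    have e1 : inner ℝ (e j).1.snd v.snd = ∫ x, inner ℝ ((e j).1.snd x) (D.gr F x) ∂μ := by
      rw [L2.inner_def]
      refine integral_congr_ae ?_
      filter_upwards [hv2] with x a2
      rw [a2]
    rw [← e1]
    refine h1.trans ?_
    congr 1
    refine integral_congr_ae ?_
    filter_upwards [hv1] with x a2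
    show Real.exp (φ x) * ((e j).1.fst x * v.fst x) = _
    rw [a2]
  · intro k l
    rw [← hE.orth k l, hB, hi, hi]
  · intro f hfμ hfo
    have hgμ : MemLp (fun x => Real.exp (φ x) * f x) 2 μ := by
      refine MemLp.of_le_mul (c := Real.exp ‖φ‖) hfμ
        (hwc.aestronglyMeasurable.mul hfμ.aestronglyMeasurable) (Eventually.of_forall fun x => ?_)
      rw [norm_mul]
      exact mul_le_mul_of_nonneg_right (exp_bd φ x).2 (norm_nonneg _)
    have hg0 : (fun x => Real.exp (φ x) * f x) =ᵐ[μ] 0 := by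
      refine c1_total tGr tLoc μ D hD _ hgμ fun G hG => ?_
      obtain ⟨v, hv, hv1, -⟩ := hD1 G hG
      set ℓ : HF D μ →L[ℝ] ℝ := (innerSL ℝ (hgμ.toLp _)).comp i with hℓ
      have hℓv : ∀ v : HF D μ, ℓ v = ∫ x, Real.exp (φ x) * (f x * (v.1.fst : M → ℝ) x) ∂μ := by
        intro v
        rw [hℓ, ContinuousLinearMap.comp_apply, innerSL_apply_apply, inn, hi]
        refine integral_congr_ae ?_
        filter_upwards [hgμ.coeFn_toLp] with x hx
        rw [hx]
        ring
      have hℓe : ∀ j, ℓ (e j) = 0 := by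
        intro j
        rw [hℓv]
        exact hfo j
      have hnorm : ∀ v : HF D μ, ‖i v‖ ^ 2 ≤ Real.exp ‖(0 : C(M, ℝ)) - φ‖ * b φ v v := by
        intro v
        refine le_trans (le_of_eq ?_) (hcmp 0 φ v)
        rw [hB, nsqR]
        refine integral_congr_ae (Eventually.of_forall fun x => ?_)
        simp only [ContinuousMap.zero_apply, Real.exp_zero, one_mul]
        ring
      have hsum := hE.sum (⟨v, hv⟩ : HF D μ)
      set V : HF D μ := ⟨v, hv⟩ with hV
      set t : ℕ → ℝ := fun j => b φ V (e j) with ht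
      set S : ℕ → HF D μ := fun n => ∑ j ∈ Finset.range n, t j • e j with hS
      have hbS : ∀ n, b φ (V - S n) (V - S n) = b φ V V - ∑ j ∈ Finset.range n, (t j) ^ 2 := by
        intro n
        have e1 : b φ V (S n) = ∑ j ∈ Finset.range n, (t j) ^ 2 := by
          simp only [hS, map_sum, map_smul, smul_eq_mul]
          exact Finset.sum_congr rfl fun j _ => by rw [sq]
        have e2 : b φ (S n) V = ∑ j ∈ Finset.range n, (t j) ^ 2 := by
          rw [(hF φ).sb, e1]
        have e3 : b φ (S n) (S n) = ∑ j ∈ Finset.range n, (t j) ^ 2 := by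
          have e4 : ∀ j ∈ Finset.range n, b φ (S n) (e j) = t j := by
            intro j hj
            simp only [hS, map_sum, map_smul, ContinuousLinearMap.sum_apply,
              ContinuousLinearMap.smul_apply, smul_eq_mul, hE.orth]
            simp only [mul_ite, mul_one, mul_zero]
            rw [Finset.sum_ite_eq' (Finset.range n) j t, if_pos hj]
          calc b φ (S n) (S n) = ∑ j ∈ Finset.range n, t j * b φ (S n) (e j) := by
                have e5 : b φ (S n) (∑ j ∈ Finset.range n, t j • e j) =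
                    ∑ j ∈ Finset.range n, t j * b φ (S n) (e j) := by
                  rw [map_sum]
                  exact Finset.sum_congr rfl fun j _ => by rw [map_smul, smul_eq_mul]
                exact e5
            _ = ∑ j ∈ Finset.range n, (t j) ^ 2 :=
                Finset.sum_congr rfl fun j hj => by rw [e4 j hj, sq]
        have e6 : b φ (V - S n) (V - S n) =
            b φ V V - b φ V (S n) - b φ (S n) V + b φ (S n) (S n) := by
          simp only [map_sub, ContinuousLinearMap.sub_apply]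
          ring
        rw [e6, e1, e2, e3]
        ring
      have hlim : Tendsto (fun n => ‖i (V - S n)‖ ^ 2) atTop (𝓝 0) := by
        have h1 : Tendsto (fun n => Real.exp ‖(0 : C(M, ℝ)) - φ‖ *
            (b φ V V - ∑ j ∈ Finset.range n, (t j) ^ 2)) atTop (𝓝 0) := by
          have h2 := hsum.tendsto_sum_nat
          have h3 := (h2.const_sub (b φ V V)).const_mul (Real.exp ‖(0 : C(M, ℝ)) - φ‖)
          simpa using h3
        refine squeeze_zero (fun n => sq_nonneg _) (fun n => ?_) h1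
        rw [← hbS n]
        exact hnorm _
      have hlim2 : Tendsto (fun n => ‖i (V - S n)‖) atTop (𝓝 0) := by
        have h1 := hlim.sqrt
        simpa [Real.sqrt_sq (norm_nonneg _)] using h1
      have hℓV : ℓ V = 0 := by
        have h1 : ∀ n, |ℓ V| ≤ ‖hgμ.toLp _‖ * ‖i (V - S n)‖ := by
          intro n
          have h2 : ℓ V = ℓ (V - S n) := by
            rw [map_sub]
            simp only [hS, map_sum, map_smul, hℓe, smul_zero, Finset.sum_const_zero, sub_zero]
          rw [h2, hℓ, ContinuousLinearMap.comp_apply, innerSL_apply_apply]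
          exact abs_real_inner_le_norm _ _
        have h3 : Tendsto (fun n => ‖hgμ.toLp _‖ * ‖i (V - S n)‖) atTop (𝓝 0) := by
          simpa using hlim2.const_mul (‖hgμ.toLp _‖)
        have h4 : |ℓ V| ≤ 0 := ge_of_tendsto' h3 h1
        exact abs_nonpos_iff.1 h4
      rw [hℓv] at hℓV
      rw [← hℓV]
      refine integral_congr_ae ?_
      filter_upwards [hv1] with x hx
      rw [hx]
      ring
    filter_upwards [hg0] with x hx
    exact (mul_eq_zero.1 hx).resolve_left (Real.exp_pos _).ne'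

end

end Pool.Agent.K4H46.QS
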