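import Pool.Agent.Y262.QE.Def

/-!
# Families of Riemannian metrics on a closed surface with a common area measure: definitions
-/

set_option autoImplicit false

open Set Filter Topology MeasureTheory
open scoped Real ContDiff

noncomputable section

namespace Pool.Agent.K4H46.QS

open Pool.Agent.Y262.QE

section

variable {M : Type}

/-- the surface with the same charts and other coframes `A` -/
def cof (D : Data M) (A : Fin D.N → ℂ → ℂ →L[ℝ] ℂ) : Data M where
  N := D.N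
  U := D.U
  φ := D.φ
  ψ := D.ψ
  A := A

/-- The symmetric tensor `S` (given in the charts by bilinear forms `S i z`) on the tangent vector
`w.re e₁ + w.im e₂` at `x`, where `e₁, e₂` is the orthonormal frame of `D` in the first chart which
contains `x`. -/
def ten (D : Data M) (S : Fin D.N → ℂ → ℂ →L[ℝ] ℂ →L[ℝ] ℝ) (x : M) (w : ℂ) : ℝ :=
  ∑ i, (D.pc i).indicator (fun x => S i (D.φ i x) ((D.A i (D.φ i x)).inverse w)
    ((D.A i (D.φ i x)).inverse w)) x

/-- `G` is the gradient of the function `u` for the surface `D` (in the frames which belong to the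
coframes of `D`), in the weak sense: some `C¹` functions tend to `u` in `L²` and their gradients tend
to `G` in `L²`. -/
structure IsGrad [MeasurableSpace M] (D : Data M) (μ : Measure M) (u : M → ℝ) (G : M → ℂ) :
    Prop where
  mem : MemLp u 2 μ
  memG : MemLp G 2 μ
  ex : ∃ F : ℕ → M → ℝ, (∀ k, D.C1 (F k)) ∧
    Tendsto (fun k => ∫ x, (F k x - u x) ^ 2 ∂μ) atTop (𝓝 0) ∧
    Tendsto (fun k => ∫ x, ‖D.gr (F k) x - G x‖ ^ 2 ∂μ) atTop (𝓝 0)

/-- the derivative of the logarithm of an eigenvalue, with the sign changed: `u` is the eigenfunction,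
`G` its gradient, `lam` the eigenvalue, for the metric `exp φ · ĝ`, where `ĝ` is the metric of `D`;
the derivative of `φ` is `h` and the derivative of the metric `ĝ` is `S` -/
def emt [MeasurableSpace M] (D : Data M) (μ : Measure M) (S : Fin D.N → ℂ → ℂ →L[ℝ] ℂ →L[ℝ] ℝ)
    (h φ : M → ℝ) (u : M → ℝ) (G : M → ℂ) (lam : ℝ) : ℝ :=
  (lam * ∫ x, h x * (Real.exp (φ x) * (u x) ^ 2) ∂μ + ∫ x, ten D S x (G x) ∂μ) / lam

/-- The random metric `exp (φ o) · ĝ o`, where `ĝ o` is given by the coframes `A o` and has the area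
`μ`, is deformed by the flow `θ`: along the flow `log ĝ` and `φ` are Lipschitz with the constant `K`,
and at the time `0` the derivative of `ĝ` is the symmetric tensor `S o` and the derivative of `φ` is
the function `h o`. -/
structure IsDef [TopologicalSpace M] [CompactSpace M] [MeasurableSpace M] (D : Data M)
    (μ : Measure M) {Ω : Type} (θ : ℝ → Ω → Ω) (A : Ω → Fin D.N → ℂ → ℂ →L[ℝ] ℂ)
    (φ : Ω → C(M, ℝ)) (S : Ω → Fin D.N → ℂ → ℂ →L[ℝ] ℂ →L[ℝ] ℝ) (h : Ω → C(M, ℝ)) (K : ℝ) :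
    Prop where
  surf : ∀ o, (cof D (A o)).IsSurf μ
  lipA : ∀ o t i, ∀ z ∈ D.T i, ∀ v,
    ‖A (θ t o) i z v‖ ^ 2 ≤ Real.exp (K * |t|) * ‖A o i z v‖ ^ 2
  lipφ : ∀ o t, ‖φ (θ t o) - φ o‖ ≤ K * |t|
  sym : ∀ o i z v w, S o i z v w = S o i z w v
  cont : ∀ o i, ContinuousOn (S o i) (D.T i)
  derA : ∀ o, ∀ ε : ℝ, 0 < ε → ∃ δ : ℝ, 0 < δ ∧ ∀ t : ℝ, |t| < δ → ∀ i, ∀ z ∈ D.T i, ∀ v,
    |‖A (θ t o) i z v‖ ^ 2 - ‖A o i z v‖ ^ 2 - t * S o i z v v| ≤ ε * |t| * ‖A o i z v‖ ^ 2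
  derφ : ∀ o, HasDerivAt (fun t : ℝ => φ (θ t o)) (h o) 0

/-- an ordered orthonormal basis of `L²(w μ)` which consists of eigenfunctions of the metric `w · ĝ`,
where `ĝ` is the metric of `D`, with its gradients -/
structure IsBasis [MeasurableSpace M] (D : Data M) (μ : Measure M) (w : M → ℝ) (u : ℕ → M → ℝ)
    (G : ℕ → M → ℂ) (lam : ℕ → ℝ) : Prop where
  grad : ∀ j, IsGrad D μ (u j) (G j)
  eig : ∀ j, ∀ F : M → ℝ, D.C1 F →
    ∫ x, inner ℝ (G j x) (D.gr F x) ∂μ = lam j * ∫ x, w x * (u j x * F x) ∂μ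
  mono : Monotone lam
  orth : ∀ i j, ∫ x, w x * (u i x * u j x) ∂μ = if i = j then 1 else 0
  total : ∀ f : M → ℝ, MemLp f 2 μ → (∀ j, ∫ x, w x * (f x * u j x) ∂μ = 0) → f =ᵐ[μ] 0

end

end Pool.Agent.K4H46.QS
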