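import Pool.Agent.Y264.QR.Stm
import Pool.Agent.Y592.QE.Spec
import Pool.Agent.Y726.QE.Der
import Pool.Agent.Y390.QR.LIP

/-!
# One-sided derivatives of the eigenvalues when both forms change
-/

set_option autoImplicit false

open Set Filter Topology MeasureTheory
open scoped Real ContDiff

noncomputable section

namespace Pool.Agent.K4H46.QS

open Pool.Agent.Y262.QE Pool.Agent.Y264.QR Pool.Agent.Y592.QE

/-- the final inequality: `Y` is the mass of the lower part, `x` the coefficient of the eigenvector -/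
lemma alg {lam κ B K ε η τ s g Y x a1 mY mx bv kv av bp ap sg : ℝ} (hlam : 0 ≤ lam) (hY : 0 ≤ Y)
    (hB : 0 ≤ B) (hK : 0 ≤ K) (hη : 0 ≤ η) (hη1 : η ≤ 1) (hs : 0 < s) (hε : 0 < ε)
    (hκ : |κ| ≤ B)
    (ha1 : a1 ≤ (lam - g) * Y) (hav : av = a1 + lam * x ^ 2) (hbv : bv = Y + x ^ 2)
    (hm : lam * kv + sg = mY + mx + κ * x ^ 2)
    (hmY : |mY| ≤ B * Y) (hmx : |mx| ≤ B * (Y / s + s * x ^ 2))
    (hkv : |kv| ≤ K * bv)
    (hap : ap ≤ av - τ * sg + η * |τ| * av)
    (hbp : bv + τ * kv - η * |τ| * bv ≤ bp)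
    (e1 : B * s ≤ ε / 4) (e2 : 2 * lam * η ≤ ε / 4) (e3 : (B + ε) * (1 + K) * |τ| ≤ ε / 4)
    (e4 : |τ| * (B + B / s + B) ≤ g) (hL : 0 ≤ lam - τ * κ + ε * |τ|) :
    ap ≤ (lam - τ * κ + ε * |τ|) * bp := by
  have ht := abs_nonneg τ
  have hx := sq_nonneg x
  have hbv0 : 0 ≤ bv := by rw [hbv]; positivity
  have h1 : (lam - τ * κ + ε * |τ|) * (bv + τ * kv - η * |τ| * bv) ≤
      (lam - τ * κ + ε * |τ|) * bp := mul_le_mul_of_nonneg_left hbp hL
  refine le_trans ?_ h1
  refine hap.trans ?_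
  have hav2 : av ≤ lam * bv - g * Y := by
    rw [hav, hbv]; nlinarith
  have hgY : 0 ≤ g * Y := by
    have : 0 ≤ g := le_trans (by positivity) e4
    positivity
  have hav3 : η * |τ| * av ≤ η * |τ| * (lam * bv) :=
    mul_le_mul_of_nonneg_left (by linarith) (by positivity)
  -- the second order term
  have hr : |(-(τ * κ) + ε * |τ|) * (τ * kv - η * |τ| * bv)| ≤
      (|τ| * (B + ε)) * (|τ| * (1 + K) * bv) := by
    rw [abs_mul]
    refine mul_le_mul ?_ ?_ (abs_nonneg _) (by positivity)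
    · refine (abs_add_le _ _).trans ?_
      rw [abs_neg, abs_mul, abs_mul, abs_abs, abs_of_pos hε]
      have := mul_le_mul_of_nonneg_left hκ ht
      linarith
    · refine (abs_sub _ _).trans ?_
      rw [abs_mul, abs_mul, abs_mul, abs_abs, abs_of_nonneg hη, abs_of_nonneg hbv0]
      have h3 := mul_le_mul_of_nonneg_left hkv ht
      have h4 : η * |τ| * bv ≤ 1 * |τ| * bv :=
        mul_le_mul_of_nonneg_right (mul_le_mul_of_nonneg_right hη1 ht) hbv0
      nlinarith
  have hr2 : (|τ| * (B + ε)) * (|τ| * (1 + K) * bv) ≤ ε / 4 * |τ| * bv := by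
    have := mul_le_mul_of_nonneg_right e3 (mul_nonneg ht hbv0)
    calc (|τ| * (B + ε)) * (|τ| * (1 + K) * bv) = (B + ε) * (1 + K) * |τ| * (|τ| * bv) := by ring
      _ ≤ ε / 4 * (|τ| * bv) := this
      _ = ε / 4 * |τ| * bv := by ring
  have hr3 := (abs_le.1 (hr.trans hr2)).1
  -- first order terms
  have t1 : -(|τ| * (B * Y)) ≤ τ * mY := by
    have : |τ * mY| ≤ |τ| * (B * Y) := by
      rw [abs_mul]; exact mul_le_mul_of_nonneg_left hmY ht
    exact (abs_le.1 this).1
  have t2 : -(|τ| * (B * (Y / s + s * x ^ 2))) ≤ τ * mx := by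
    have : |τ * mx| ≤ |τ| * (B * (Y / s + s * x ^ 2)) := by
      rw [abs_mul]; exact mul_le_mul_of_nonneg_left hmx ht
    exact (abs_le.1 this).1
  have t3 : -(|τ| * (B * Y)) ≤ -(τ * κ * Y) := by
    have : |τ * κ * Y| ≤ |τ| * (B * Y) := by
      rw [abs_mul, abs_mul, abs_of_nonneg hY, mul_assoc]
      exact mul_le_mul_of_nonneg_left (mul_le_mul_of_nonneg_right hκ hY) ht
    linarith [(abs_le.1 this).2]
  have t4 : |τ| * (B * (s * x ^ 2)) ≤ ε / 4 * |τ| * x ^ 2 := by
    have := mul_le_mul_of_nonneg_right e1 (mul_nonneg ht hx)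
    calc |τ| * (B * (s * x ^ 2)) = B * s * (|τ| * x ^ 2) := by ring
      _ ≤ ε / 4 * (|τ| * x ^ 2) := this
      _ = _ := by ring
  have t5 : 2 * lam * η * (|τ| * bv) ≤ ε / 4 * (|τ| * bv) :=
    mul_le_mul_of_nonneg_right e2 (mul_nonneg ht hbv0)
  have t6 : |τ| * (B + B / s + B) * Y ≤ g * Y := mul_le_mul_of_nonneg_right e4 hY
  have t6' : |τ| * (B + B / s + B) * Y = |τ| * (B * Y) + |τ| * (B * (Y / s)) + |τ| * (B * Y) := by
    ring
  have t7 : |τ| * (B * (Y / s + s * x ^ 2)) = |τ| * (B * (Y / s)) + |τ| * (B * (s * x ^ 2)) := by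
    ring
  have t8 : 0 ≤ |τ| * Y := by positivity
  have t9 : 0 ≤ |τ| * x ^ 2 := by positivity
  -- expand
  have hex : (lam - τ * κ + ε * |τ|) * (bv + τ * kv - η * |τ| * bv) =
      lam * bv + τ * (lam * kv) - lam * η * |τ| * bv + (-(τ * κ) + ε * |τ|) * bv +
        (-(τ * κ) + ε * |τ|) * (τ * kv - η * |τ| * bv) := by ring
  rw [hex]
  have hm2 : τ * (lam * kv) = τ * mY + τ * mx + τ * κ * x ^ 2 - τ * sg := by
    have : lam * kv = mY + mx + κ * x ^ 2 - sg := by linarith
    rw [this]; ring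
  rw [hm2]
  have hb1 : (-(τ * κ) + ε * |τ|) * bv = -(τ * κ * Y) - τ * κ * x ^ 2 + ε * |τ| * bv := by
    rw [hbv]; ring
  rw [hb1]
  have hb2 : ε * |τ| * bv = ε * (|τ| * Y) + ε * (|τ| * x ^ 2) := by rw [hbv]; ring
  have hb3 : |τ| * bv = |τ| * Y + |τ| * x ^ 2 := by rw [hbv]; ring
  have hb4 : η * |τ| * (lam * bv) = lam * η * |τ| * bv := by ring
  have hb5 : 2 * lam * η * (|τ| * bv) = 2 * (lam * η * |τ| * bv) := by ring
  have t8' := mul_nonneg hε.le t8
  have t9' := mul_nonneg hε.le t9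
  rw [hb5] at t5
  rw [hb4] at hav3
  rw [t6'] at t6
  rw [t7] at t2
  have hb6 : ε / 4 * (|τ| * bv) = ε / 4 * |τ| * bv := by ring
  have hb7 : ε / 4 * |τ| * bv = (ε * (|τ| * Y) + ε * (|τ| * x ^ 2)) / 4 := by rw [hbv]; ring
  have hb8 : ε / 4 * |τ| * x ^ 2 = (ε * (|τ| * x ^ 2)) / 4 := by ring
  rw [hb6, hb7] at t5
  rw [hb7] at hr3
  rw [hb8] at t4
  rw [hb2]
  linarith

lemma small {A B τ : ℝ} (hA : 0 ≤ A) (h : |τ| < B / (A + 1)) : A * |τ| ≤ B := by
  rw [lt_div_iff₀ (by linarith)] at h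
  nlinarith [abs_nonneg τ]

theorem der1 {H : Type} [NormedAddCommGroup H] [InnerProductSpace ℝ H]
    (a b : H →L[ℝ] H →L[ℝ] ℝ) (hF : Fm a b) (e : ℕ → H) (E : ℕ → ℝ) (hE : Eg a b e E)
    (k σ : H →L[ℝ] H →L[ℝ] ℝ) (K : ℝ) (ksym : ∀ u v, k u v = k v u)
    (σsym : ∀ u v, σ u v = σ v u) (hk : ∀ v, |k v v| ≤ K * b v v)
    (hσ : ∀ v, |σ v v| ≤ K * a v v) (i j : ℕ) (hij : E i = E j) (hlt : ∀ l, l < i → E l < E i)
    (ε : ℝ) (hε : 0 < ε) :
    ∃ η : ℝ, 0 < η ∧ ∃ δ : ℝ, 0 < δ ∧ ∀ τ : ℝ, |τ| < δ → ∀ a' b' : H →L[ℝ] H →L[ℝ] ℝ,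
      (∀ v, a' v v ≤ a v v - τ * σ v v + η * |τ| * a v v) →
      (∀ v, b v v + τ * k v v - η * |τ| * b v v ≤ b' v v) →
      0 ≤ E i - τ * (E i * k (e j) (e j) + σ (e j) (e j)) + ε * |τ| ∧
      HD a' b' (E i - τ * (E i * k (e j) (e j) + σ (e j) (e j)) + ε * |τ|) i := by
  have hE0 : ∀ l, 0 ≤ E l := by
    intro l
    have h1 := hF.na (e l)
    rw [hE.eig, hE.orth, if_pos rfl, mul_one] at h1
    exact h1
  have hjj : b (e j) (e j) = 1 := by rw [hE.orth, if_pos rfl]
  have hajj : a (e j) (e j) = E i := by rw [hE.eig, hjj, mul_one]; exact hij.symm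
  have hk1 : |k (e j) (e j)| ≤ K := by
    have h1 := hk (e j)
    rwa [hjj, mul_one] at h1
  have hK : 0 ≤ K := (abs_nonneg _).trans hk1
  have hσ1 : |σ (e j) (e j)| ≤ K * E i := by
    have h1 := hσ (e j)
    rwa [hajj] at h1
  set lam := E i with hlam
  have hlam0 : 0 ≤ lam := hE0 i
  set κ := lam * k (e j) (e j) + σ (e j) (e j) with hκdef
  set B : ℝ := 2 * K * lam with hBdef
  have hB : 0 ≤ B := by positivity
  have hκ : |κ| ≤ B := by
    refine (abs_add_le _ _).trans ?_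
    rw [abs_mul, abs_of_nonneg hlam0, hBdef]
    nlinarith [mul_le_mul_of_nonneg_left hk1 hlam0]
  obtain ⟨g, hg, hgap⟩ := Pool.Agent.Y726.QE.exists_gap (Finset.range i) (fun l => lam - E l)
    (fun l hl => by
      have := hlt l (Finset.mem_range.1 hl)
      linarith)
  set s : ℝ := ε / (4 * B + ε) with hs
  have hs0 : 0 < s := by positivity
  have e1 : B * s ≤ ε / 4 := by
    rw [hs, mul_div_assoc', div_le_iff₀ (by positivity)]
    nlinarith [mul_pos hε hε]
  obtain ⟨η, hη0, hη1, hη2⟩ : ∃ η : ℝ, 0 < η ∧ η ≤ 1 ∧ 2 * lam * η ≤ ε / 4 := by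
    refine ⟨min 1 (ε / (8 * lam + 1)), lt_min one_pos (by positivity), min_le_left _ _, ?_⟩
    have h1 : 2 * lam * min 1 (ε / (8 * lam + 1)) ≤ 2 * lam * (ε / (8 * lam + 1)) :=
      mul_le_mul_of_nonneg_left (min_le_right _ _) (by positivity)
    refine h1.trans ?_
    rw [mul_div_assoc', div_le_iff₀ (by positivity)]
    nlinarith
  refine ⟨η, hη0, min (min ((ε / 4) / ((B + ε) * (1 + K) + 1)) (g / ((B + B / s + B) + 1)))
    (1 / (2 * K + 1)), ?_, ?_⟩
  · refine lt_min (lt_min ?_ ?_) ?_ <;> positivity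
  intro τ hτ a' b' ha' hb'
  have e3 : (B + ε) * (1 + K) * |τ| ≤ ε / 4 :=
    small (by positivity) (lt_of_lt_of_le hτ ((min_le_left _ _).trans (min_le_left _ _)))
  have e4 : |τ| * (B + B / s + B) ≤ g := by
    rw [mul_comm]
    exact small (by positivity) (lt_of_lt_of_le hτ ((min_le_left _ _).trans (min_le_right _ _)))
  have ht := abs_nonneg τ
  have hL : 0 ≤ lam - τ * κ + ε * |τ| := by
    have h5 : 2 * K * |τ| ≤ 1 := small (by positivity) (lt_of_lt_of_le hτ (min_le_right _ _))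
    have h6 : τ * κ ≤ |τ| * B := by
      refine (le_abs_self _).trans ?_
      rw [abs_mul]
      exact mul_le_mul_of_nonneg_left hκ ht
    have h7 : |τ| * B ≤ lam := by
      have := mul_le_mul_of_nonneg_right h5 hlam0
      rw [hBdef]
      linarith
    have h8 : 0 ≤ ε * |τ| := by positivity
    linarith
  refine ⟨hL, ?_⟩
  -- the subspace
  have hji : ∀ l, l < i → l ≠ j := by
    rintro l hl rfl
    have := hlt l hl
    linarith
  let idx : Fin (i + 1) → ℕ := fun p => if (p : ℕ) < i then p else j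
  have hidx : Function.Injective idx := by
    intro p q hpq
    simp only [idx] at hpq
    have hp := p.2
    have hq := q.2
    split_ifs at hpq with hp1 hq1 hq1
    · exact Fin.ext hpq
    · exact absurd hpq (hji _ hp1)
    · exact absurd hpq.symm (hji _ hq1)
    · apply Fin.ext
      omega
  let f : Fin (i + 1) → H := fun p => e (idx p)
  have horth : ∀ p q : Fin (i + 1), b (f p) (f q) = if p = q then 1 else 0 := by
    intro p q
    show b (e (idx p)) (e (idx q)) = _
    rw [hE.orth]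
    by_cases h : p = q
    · rw [if_pos h, if_pos (by rw [h])]
    · rw [if_neg h, if_neg fun h' => h (hidx h')]
  refine ⟨Submodule.span ℝ (range f), finrank_orth b horth, ?_⟩
  intro v hv
  obtain ⟨c, rfl⟩ := (Submodule.mem_span_range_iff_exists_fun ℝ).1 hv
  set x := c (Fin.last i) with hx
  let d : Fin i → ℝ := fun l => c l.castSucc
  set y : H := ∑ l : Fin i, d l • e l with hydef
  have hv' : ∑ p, c p • f p = y + x • e j := by
    rw [Fin.sum_univ_castSucc]
    congr 1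
    · refine Finset.sum_congr rfl fun l _ => ?_
      have : idx l.castSucc = l := by
        simp only [idx, Fin.val_castSucc, if_pos l.2]
      show c l.castSucc • e (idx l.castSucc) = _
      rw [this]
    · have : idx (Fin.last i) = j := by
        simp only [idx, Fin.val_last, lt_irrefl, if_false]
      show c (Fin.last i) • e (idx (Fin.last i)) = _
      rw [this]
  rw [hv']
  have ho := orth_fin b hE.orth i
  have hyy : b y y = ∑ l : Fin i, d l ^ 2 := b_orth_self b ho d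
  have hY0 : 0 ≤ b y y := hF.nb y
  have hyj : b y (e j) = 0 := by
    rw [hydef, b_sum_left]
    refine Finset.sum_eq_zero fun l _ => ?_
    rw [hE.orth, if_neg (hji l l.2), mul_zero]
  have hayy : a y y ≤ (lam - g) * b y y := by
    have h5 : a y y = ∑ l : Fin i, E l * d l ^ 2 := by
      rw [hydef, b_sum_left]
      refine Finset.sum_congr rfl fun l _ => ?_
      rw [hE.eig, b_orth_coef b ho]
      ring
    rw [h5, hyy, Finset.mul_sum]
    refine Finset.sum_le_sum fun l _ => ?_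
    have h6 := hgap l (Finset.mem_range.2 l.2)
    exact mul_le_mul_of_nonneg_right (by linarith) (sq_nonneg _)
  have haj1 : a (e j) y = 0 := by rw [hE.eig, hF.sb, hyj, mul_zero]
  have haj2 : a y (e j) = 0 := by rw [hF.sa, haj1]
  have hbj : b (e j) y = 0 := by rw [hF.sb, hyj]
  have hav : ∀ r : ℝ, a (y + r • e j) (y + r • e j) = a y y + lam * r ^ 2 := by
    intro r
    simp only [map_add, map_smul, add_apply, smul_apply, smul_eq_mul, haj1, haj2, hajj]
    ring
  have hbv : ∀ r : ℝ, b (y + r • e j) (y + r • e j) = b y y + r ^ 2 := by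
    intro r
    simp only [map_add, map_smul, add_apply, smul_apply, smul_eq_mul, hyj, hbj, hjj]
    ring
  set m : H → H → ℝ := fun u v => lam * k u v + σ u v with hmdef
  have hmsym : m (e j) y = m y (e j) := by
    simp only [hmdef]
    rw [ksym (e j) y, σsym (e j) y]
  have hmv : ∀ r : ℝ, m (y + r • e j) (y + r • e j) = m y y + 2 * r * m y (e j) + κ * r ^ 2 := by
    intro r
    have h1 : m (y + r • e j) (y + r • e j) = m y y + r * m y (e j) + r * m (e j) y +
        r ^ 2 * m (e j) (e j) := by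
      simp only [hmdef, map_add, map_smul, add_apply, smul_apply, smul_eq_mul]
      ring
    rw [h1, hmsym]
    have h2 : m (e j) (e j) = κ := rfl
    rw [h2]
    ring
  have haB : ∀ r : ℝ, |m (y + r • e j) (y + r • e j)| ≤ B * (b y y + r ^ 2) := by
    intro r
    have h1 := hk (y + r • e j)
    have h2 := hσ (y + r • e j)
    rw [hbv] at h1
    rw [hav] at h2
    have h3 : a y y + lam * r ^ 2 ≤ lam * (b y y + r ^ 2) := by
      have : 0 ≤ g * b y y := by positivity
      nlinarith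
    have h4 := mul_le_mul_of_nonneg_left h3 hK
    refine (abs_add_le _ _).trans ?_
    rw [abs_mul, abs_of_nonneg hlam0, hBdef]
    have h5 := mul_le_mul_of_nonneg_left h1 hlam0
    nlinarith
  have hmY : |m y y| ≤ B * b y y := by
    have h1 := haB 0
    simpa using h1
  have hcross : |2 * x * m y (e j)| ≤ B * (b y y / s + s * x ^ 2) := by
    have p1 := haB (s * x)
    have p2 := haB (-(s * x))
    rw [hmv] at p1 p2
    have h5 : |s * (2 * x * m y (e j))| ≤ s * (B * (b y y / s + s * x ^ 2)) := by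
      have h6 : s * (B * (b y y / s + s * x ^ 2)) = B * (b y y + (s * x) ^ 2) := by
        field_simp
      rw [h6]
      obtain ⟨u1, u2⟩ := abs_le.1 p1
      obtain ⟨w1, w2⟩ := abs_le.1 p2
      rw [abs_le]
      constructor <;> nlinarith
    rw [abs_mul, abs_of_pos hs0] at h5
    exact le_of_mul_le_mul_left h5 hs0
  exact alg (lam := lam) (κ := κ) (B := B) (K := K) (ε := ε) (η := η) (τ := τ) (s := s) (g := g)
    (Y := b y y) (x := x) (a1 := a y y) (mY := m y y) (mx := 2 * x * m y (e j))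
    (bv := b (y + x • e j) (y + x • e j)) (kv := k (y + x • e j) (y + x • e j))
    (av := a (y + x • e j) (y + x • e j)) (sg := σ (y + x • e j) (y + x • e j))
    hlam0 hY0 hB hK hη0.le hη1 hs0 hε hκ hayy (hav x) (hbv x) (hmv x) hmY hcross (hk _)
    (ha' _) (hb' _) e1 hη2 e3 e4 hL

end Pool.Agent.K4H46.QS
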