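import Mathlib

/-!
# Measurability of the derivative of a random function
-/

set_option autoImplicit false

open Set Filter Topology MeasureTheory
open scoped Real

noncomputable section

namespace Pool.Agent.K4H46.QS

lemma diff_iff {g : ℝ → ℝ} (hg : Continuous g) : DifferentiableAt ℝ g 0 ↔
    ∀ n : ℕ, ∃ m : ℕ, ∀ p q : ℚ, (p : ℝ) ≠ 0 → (q : ℝ) ≠ 0 → |(p : ℝ)| < 1 / ((m : ℝ) + 1) →
      |(q : ℝ)| < 1 / ((m : ℝ) + 1) →
      |(g p - g 0) / p - (g q - g 0) / q| ≤ 1 / ((n : ℝ) + 1) := by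
  constructor
  · intro h n
    have h1 := hasDerivAt_iff_tendsto_slope_zero.1 h.hasDerivAt
    have hn : (0 : ℝ) < 1 / ((n : ℝ) + 1) / 2 := by positivity
    have h2 := Metric.tendsto_nhdsWithin_nhds.1 h1 _ hn
    obtain ⟨δ, hδ, h3⟩ := h2
    obtain ⟨m, hm⟩ := exists_nat_one_div_lt hδ
    refine ⟨m, fun p q hp hq hp1 hq1 => ?_⟩
    have e : ∀ r : ℝ, r⁻¹ • (g (0 + r) - g 0) = (g r - g 0) / r := by
      intro r
      rw [zero_add, smul_eq_mul, div_eq_inv_mul]
    have h4 := h3 (x := (p : ℝ)) hp (by rw [dist_zero_right, Real.norm_eq_abs]; linarith)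
    have h5 := h3 (x := (q : ℝ)) hq (by rw [dist_zero_right, Real.norm_eq_abs]; linarith)
    rw [e, Real.dist_eq] at h4 h5
    obtain ⟨a1, a2⟩ := abs_lt.1 h4
    obtain ⟨b1, b2⟩ := abs_lt.1 h5
    rw [abs_le]
    constructor <;> linarith
  · intro h
    have hsl : ∀ n : ℕ, ∃ m : ℕ, ∀ s t : ℝ, s ≠ 0 → t ≠ 0 → |s| < 1 / ((m : ℝ) + 1) →
        |t| < 1 / ((m : ℝ) + 1) → |(g s - g 0) / s - (g t - g 0) / t| ≤ 1 / ((n : ℝ) + 1) := by
      intro n
      obtain ⟨m, hm⟩ := h n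
      refine ⟨m, fun s t hs ht hs1 ht1 => ?_⟩
      by_contra hn
      push Not at hn
      let U : Set (ℝ × ℝ) := {p | (p.1 ≠ 0 ∧ p.2 ≠ 0) ∧ |p.1| < 1 / ((m : ℝ) + 1) ∧
        |p.2| < 1 / ((m : ℝ) + 1)}
      have hU : IsOpen U := by
        refine IsOpen.inter (IsOpen.inter ?_ ?_) (IsOpen.inter ?_ ?_)
        · exact isOpen_ne_fun continuous_fst continuous_const
        · exact isOpen_ne_fun continuous_snd continuous_const
        · exact isOpen_lt continuous_fst.abs continuous_const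
        · exact isOpen_lt continuous_snd.abs continuous_const
      have hc : ContinuousOn (fun p : ℝ × ℝ => |(g p.1 - g 0) / p.1 - (g p.2 - g 0) / p.2|) U := by
        refine ContinuousOn.abs (ContinuousOn.sub (ContinuousOn.div ?_ ?_ fun p hp => hp.1.1)
          (ContinuousOn.div ?_ ?_ fun p hp => hp.1.2))
        · exact (by fun_prop : Continuous fun p : ℝ × ℝ => g p.1 - g 0).continuousOn
        · exact continuous_fst.continuousOn
        · exact (by fun_prop : Continuous fun p : ℝ × ℝ => g p.2 - g 0).continuousOn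
        · exact continuous_snd.continuousOn
      have hO := hc.isOpen_inter_preimage hU (isOpen_Ioi (a := 1 / ((n : ℝ) + 1)))
      obtain ⟨⟨p, q⟩, hpq⟩ := (Rat.denseRange_cast.prodMap
        Rat.denseRange_cast).exists_mem_open hO ⟨(s, t), ⟨⟨⟨hs, ht⟩, hs1, ht1⟩, hn⟩⟩
      obtain ⟨⟨⟨h1, h2⟩, h3, h4⟩, h5⟩ := hpq
      exact absurd (hm p q h1 h2 h3 h4) (not_le.2 h5)
    have hC : Cauchy (map (fun t => t⁻¹ • (g (0 + t) - g 0)) (𝓝[≠] (0 : ℝ))) := by
      rw [Metric.cauchy_iff]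
      refine ⟨inferInstance, fun ε hε => ?_⟩
      obtain ⟨n, hn⟩ := exists_nat_one_div_lt hε
      obtain ⟨m, hm⟩ := hsl n
      refine ⟨(fun t => t⁻¹ • (g (0 + t) - g 0)) '' {t | t ≠ 0 ∧ |t| < 1 / ((m : ℝ) + 1)},
        image_mem_map ?_, ?_⟩
      · have h1 : ∀ᶠ t : ℝ in 𝓝[≠] 0, |t| < 1 / ((m : ℝ) + 1) := by
          have h2 : ∀ᶠ t : ℝ in 𝓝 0, |t| < 1 / ((m : ℝ) + 1) := by
            have : Tendsto (fun t : ℝ => |t|) (𝓝 0) (𝓝 |0|) := continuous_abs.tendsto 0
            rw [abs_zero] at this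
            exact this.eventually_lt_const (by positivity)
          exact h2.filter_mono nhdsWithin_le_nhds
        filter_upwards [h1, self_mem_nhdsWithin] with t h2 h3
        exact ⟨h3, h2⟩
      · rintro _ ⟨s, ⟨hs, hs1⟩, rfl⟩ _ ⟨t, ⟨ht, ht1⟩, rfl⟩
        have h2 := hm s t hs ht hs1 ht1
        rw [Real.dist_eq]
        simp only [zero_add, smul_eq_mul, ← div_eq_inv_mul]
        linarith
    obtain ⟨c, hc⟩ := cauchy_map_iff_exists_tendsto.1 hC
    exact (hasDerivAt_iff_tendsto_slope_zero.2 hc).differentiableAt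

/-- measurability of the derivative at `0` of a continuous random function -/
theorem diff_meas {Ω : Type} [MeasurableSpace Ω] (g : ℝ → Ω → ℝ) (hm : ∀ t, Measurable (g t))
    (hc : ∀ o, Continuous fun t => g t o) :
    MeasurableSet {o | DifferentiableAt ℝ (fun t => g t o) 0} ∧
      Measurable fun o => deriv (fun t => g t o) 0 := by
  have hS : MeasurableSet {o | DifferentiableAt ℝ (fun t => g t o) 0} := by
    have e : {o | DifferentiableAt ℝ (fun t => g t o) 0} = ⋂ n : ℕ, ⋃ m : ℕ, ⋂ p : ℚ, ⋂ q : ℚ,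
        {o | (p : ℝ) ≠ 0 → (q : ℝ) ≠ 0 → |(p : ℝ)| < 1 / ((m : ℝ) + 1) →
          |(q : ℝ)| < 1 / ((m : ℝ) + 1) →
          |(g p o - g 0 o) / p - (g q o - g 0 o) / q| ≤ 1 / ((n : ℝ) + 1)} := by
      ext o
      simp only [mem_setOf_eq, mem_iInter, mem_iUnion]
      exact diff_iff (hc o)
    rw [e]
    refine MeasurableSet.iInter fun n => MeasurableSet.iUnion fun m => MeasurableSet.iInter
      fun p => MeasurableSet.iInter fun q => ?_
    by_cases h1 : (p : ℝ) ≠ 0 ∧ (q : ℝ) ≠ 0 ∧ |(p : ℝ)| < 1 / ((m : ℝ) + 1) ∧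
        |(q : ℝ)| < 1 / ((m : ℝ) + 1)
    · obtain ⟨h1, h2, h3, h4⟩ := h1
      have : {o | (p : ℝ) ≠ 0 → (q : ℝ) ≠ 0 → |(p : ℝ)| < 1 / ((m : ℝ) + 1) →
          |(q : ℝ)| < 1 / ((m : ℝ) + 1) →
          |(g p o - g 0 o) / p - (g q o - g 0 o) / q| ≤ 1 / ((n : ℝ) + 1)} =
          {o | |(g p o - g 0 o) / p - (g q o - g 0 o) / q| ≤ 1 / ((n : ℝ) + 1)} := by
        ext o
        exact ⟨fun h => h h1 h2 h3 h4, fun h _ _ _ _ => h⟩
      rw [this]
      have hf : Measurable fun o => |(g p o - g 0 o) / p - (g q o - g 0 o) / q| := by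
        have := (((hm p).sub (hm 0)).div_const (p : ℝ)).sub
          (((hm q).sub (hm 0)).div_const (q : ℝ))
        exact this.abs
      exact measurableSet_le hf measurable_const
    · have : {o | (p : ℝ) ≠ 0 → (q : ℝ) ≠ 0 → |(p : ℝ)| < 1 / ((m : ℝ) + 1) →
          |(q : ℝ)| < 1 / ((m : ℝ) + 1) →
          |(g p o - g 0 o) / p - (g q o - g 0 o) / q| ≤ 1 / ((n : ℝ) + 1)} = univ := by
        ext o
        simp only [mem_setOf_eq, mem_univ, iff_true]
        intro a1 a2 a3 a4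
        exact absurd ⟨a1, a2, a3, a4⟩ h1
      rw [this]
      exact MeasurableSet.univ
  refine ⟨hS, ?_⟩
  let S := {o | DifferentiableAt ℝ (fun t => g t o) 0}
  refine measurable_of_tendsto_metrizable (f := fun (k : ℕ) => S.indicator
    fun o => ((1 : ℝ) / ((k : ℝ) + 1))⁻¹ * (g (0 + 1 / ((k : ℝ) + 1)) o - g 0 o)) (fun k => ?_) ?_
  · exact (((hm _).sub (hm 0)).const_mul _).indicator hS
  · rw [tendsto_pi_nhds]
    intro o
    by_cases ho : o ∈ S
    · have h1 := hasDerivAt_iff_tendsto_slope_zero.1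
        (DifferentiableAt.hasDerivAt (f := fun t => g t o) ho)
      have h2 : Tendsto (fun k : ℕ => (1 : ℝ) / ((k : ℝ) + 1)) atTop (𝓝[≠] 0) := by
        refine tendsto_nhdsWithin_iff.2 ⟨tendsto_one_div_add_atTop_nhds_zero_nat,
          Eventually.of_forall fun k => ?_⟩
        have : (0 : ℝ) < 1 / ((k : ℝ) + 1) := by positivity
        exact this.ne'
      refine (h1.comp h2).congr fun k => ?_
      rw [indicator_of_mem ho]
      rfl
    · have h1 : deriv (fun t => g t o) 0 = 0 := deriv_zero_of_not_differentiableAt ho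
      rw [h1]
      refine tendsto_const_nhds.congr fun k => ?_
      rw [indicator_of_notMem ho]

end Pool.Agent.K4H46.QS
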