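import Pool.Agent.K4H46.QS.Ln
import Pool.Agent.K4H46.QS.Ms
import Pool.Agent.Y319.QR.Dr

/-!
# Random metrics deformed by a flow
-/

set_option autoImplicit false

open Set Filter Topology MeasureTheory
open scoped Real

noncomputable section

namespace Pool.Agent.K4H46.QS

open Pool.Agent.Y262.QE Pool.Agent.Y264.QR Pool.Agent.Y708.QE

/-- truncation -/
def cl (C x : ℝ) : ℝ := max (-C) (min C x)

lemma cl_le {C : ℝ} (hC : 0 ≤ C) (x : ℝ) : |cl C x| ≤ C := by
  unfold cl
  rw [abs_le]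
  exact ⟨le_max_left _ _, max_le (by linarith) (min_le_left _ _)⟩

lemma cl_eq {C x : ℝ} (h : |x| ≤ C) : cl C x = x := by
  unfold cl
  obtain ⟨h1, h2⟩ := abs_le.1 h
  rw [min_eq_right h2, max_eq_right h1]

section

variable {M : Type} [MetricSpace M] [CompactSpace M] [MeasurableSpace M] [BorelSpace M]
  {μ : Measure M} {D : Data M} {Ω : Type} [MeasurableSpace Ω] {P : Measure Ω}
  {θ : ℝ → Ω → Ω}

/-- the family of metrics on an orbit -/
theorem IsDef.fam (hθ : Flw P θ) {A φ S h K} (H : IsDef D μ θ A φ S h K) (o : Ω) :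
    Fam D μ (fun t => A (θ t o)) (fun t => φ (θ t o)) (fun t => S (θ t o)) (fun t => h (θ t o))
      K where
  surf t := H.surf _
  lipA s t i z hz v := by
    have h1 := H.lipA (θ t o) (s - t) i z hz v
    rwa [← hθ.add, sub_add_cancel] at h1
  lipφ s t := by
    have h1 := H.lipφ (θ t o) (s - t)
    rwa [← hθ.add, sub_add_cancel] at h1
  sym t := H.sym _
  cont t := H.cont _
  derA t ε hε := by
    obtain ⟨δ, hδ, h1⟩ := H.derA (θ t o) ε hε
    refine ⟨δ, hδ, fun τ hτ i z hz v => ?_⟩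
    have h2 := h1 τ hτ i z hz v
    rwa [← hθ.add, add_comm τ t] at h2
  derφ t := by
    have h1 := H.derφ (θ t o)
    have h2 : HasDerivAt (fun s : ℝ => s - t) 1 t := (hasDerivAt_id t).sub_const t
    have h3 : HasDerivAt (fun τ : ℝ => φ (θ τ (θ t o))) (h (θ t o)) ((fun s : ℝ => s - t) t) := by
      show HasDerivAt (fun τ : ℝ => φ (θ τ (θ t o))) (h (θ t o)) (t - t)
      rw [sub_self]; exact h1
    have h4 := HasDerivAt.scomp (h := fun s : ℝ => s - t) t h3 h2
    rw [one_smul] at h4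
    have e : ((fun τ : ℝ => φ (θ τ (θ t o))) ∘ fun s : ℝ => s - t) = fun s => φ (θ s o) := by
      funext s
      show φ (θ (s - t) (θ t o)) = φ (θ s o)
      rw [← hθ.add, sub_add_cancel]
    rwa [e] at h4

theorem cont_lip {f : ℝ → ℝ} {C : ℝ} (h : ∀ s t, f s ≤ Real.exp (C * |s - t|) * f t) : Continuous f := by
  rw [continuous_iff_continuousAt]
  intro t
  have h1 : Tendsto (fun s => Real.exp (C * |s - t|) * f t) (𝓝 t) (𝓝 (f t)) := by
    have : Continuous fun s => Real.exp (C * |s - t|) * f t := by fun_prop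
    have h2 := this.tendsto t
    simpa using h2
  have h2 : Tendsto (fun s => Real.exp (-(C * |s - t|)) * f t) (𝓝 t) (𝓝 (f t)) := by
    have : Continuous fun s => Real.exp (-(C * |s - t|)) * f t := by fun_prop
    have h2 := this.tendsto t
    simpa using h2
  refine tendsto_of_tendsto_of_tendsto_of_le_of_le h2 h1 (fun s => ?_) fun s => h s t
  show Real.exp (-(C * |s - t|)) * f t ≤ f s
  have h3 := h t s
  rw [abs_sub_comm] at h3
  calc Real.exp (-(C * |s - t|)) * f t
      ≤ Real.exp (-(C * |s - t|)) * (Real.exp (C * |s - t|) * f s) :=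
        mul_le_mul_of_nonneg_left h3 (Real.exp_pos _).le
    _ = f s := by rw [← mul_assoc, ← Real.exp_add]; simp

/-- shift of a derivative along an orbit -/
theorem shift (hθ : Flw P θ) {G : Ω → ℝ} {o : Ω} {t c : ℝ}
    (hG : HasDerivAt (fun s : ℝ => G (θ s o)) c t) :
    HasDerivAt (fun τ : ℝ => G (θ τ (θ t o))) c 0 := by
  have h1 : HasDerivAt (fun τ : ℝ => τ + t) 1 0 := (hasDerivAt_id (0 : ℝ)).add_const t
  have h2 : HasDerivAt (fun s : ℝ => G (θ s o)) c (0 + t) := by rw [zero_add]; exact hG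
  have h3 := h2.comp (0 : ℝ) h1
  rw [mul_one] at h3
  have h4 : ((fun s : ℝ => G (θ s o)) ∘ fun τ : ℝ => τ + t) =
      fun τ : ℝ => G (θ τ (θ t o)) := by
    funext τ
    show G (θ (τ + t) o) = G (θ τ (θ t o))
    rw [hθ.add]
  rw [h4] at h3
  exact h3

/-- **Random metrics which are deformed by a flow.** -/
theorem flow [IsProbabilityMeasure P] (hθ : Flw P θ) {A φ S h K} (H : IsDef D μ θ A φ S h K)
    (i : ∀ o, HF (cof D (A o)) μ →L[ℝ] Lp ℝ 2 μ)
    (a : ∀ o, HF (cof D (A o)) μ →L[ℝ] HF (cof D (A o)) μ →L[ℝ] ℝ)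
    (b : ∀ o, C(M, ℝ) → HF (cof D (A o)) μ →L[ℝ] HF (cof D (A o)) μ →L[ℝ] ℝ)
    (hp : ∀ o, Pk (cof D (A o)) μ (i o) (a o) (b o))
    (e : ∀ o, ℕ → HF (cof D (A o)) μ) (E : Ω → ℕ → ℝ)
    (hE : ∀ o, Eg (a o) (b o (φ o)) (e o) (E o)) (hm : ∀ j, Measurable fun o => E o j) :
    (∀ j, AEStronglyMeasurable
      (fun o => ka (cof D (A o)) μ (i o) (S o) (h o) (φ o) (e o j) (E o j)) P) ∧
    Measurable (fun o => avg μ (h o) (φ o)) ∧
    (∀ o j, |ka (cof D (A o)) μ (i o) (S o) (h o) (φ o) (e o j) (E o j)| ≤ 2 * K + 2) ∧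
    (∀ o, |avg μ (h o) (φ o)| ≤ 2 * K + 2) ∧
    ∀ χ : Ω → ℝ, Integrable χ P →
      Tendsto (fun j => ∫ o, χ o * ka (cof D (A o)) μ (i o) (S o) (h o) (φ o) (e o j) (E o j) ∂P)
        atTop (𝓝 (∫ o, χ o * avg μ (h o) (φ o) ∂P)) := by
  obtain ⟨o0, -⟩ : ∃ o : Ω, True := by
    by_contra hn
    push Not at hn
    have h1 : (univ : Set Ω) = ∅ := by
      ext o
      exact ⟨fun _ => hn o, fun h => absurd h (by simp)⟩
    have h2 := measure_univ (μ := P)
    rw [h1, measure_empty] at h2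
    exact zero_ne_one h2
  obtain ⟨hf, -⟩ := tFin M μ (cof D (A o0)) (H.surf o0)
  have F : ∀ o, Fam D μ (fun t => A (θ t o)) (fun t => φ (θ t o)) (fun t => S (θ t o))
      (fun t => h (θ t o)) K := fun o => H.fam hθ o
  have hK : 0 ≤ K := (F o0).K0
  have hθm : ∀ t, Measurable (θ t) := fun t =>
    hθ.meas.comp (measurable_const.prodMk measurable_id)
  set κ : Ω → ℕ → ℝ := fun o j => ka (cof D (A o)) μ (i o) (S o) (h o) (φ o) (e o j) (E o j)
    with hκdef
  have hline := fun o => line (F o) (fun t => i (θ t o)) (fun t => a (θ t o))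
    (fun t => b (θ t o)) (fun t => hp (θ t o)) (fun t => e (θ t o)) (fun t => E (θ t o))
    (fun t => hE (θ t o))
  have hL : ∀ (o : Ω) (j : ℕ) (s t : ℝ), E (θ s o) j ≤
      Real.exp ((2 * K + 2) * |s - t|) * E (θ t o) j := fun o => (hline o).1
  have hcont : ∀ o j, Continuous fun t => E (θ t o) j := fun o j => cont_lip (hL o j)
  have hd1 : ∀ o, ∀ᵐ t : ℝ, ∀ j, HasDerivAt (fun s => E (θ s o) j)
      (-(κ (θ t o) j * E (θ t o) j)) t := fun o => (hline o).2.1
  have hd2 : ∀ o, ∀ᵐ t : ℝ, ∀ j, HasDerivAt (fun τ => E (θ τ (θ t o)) j)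
      (-(κ (θ t o) j * E (θ t o) j)) 0 := by
    intro o
    filter_upwards [hd1 o] with t ht j
    exact shift hθ (G := fun o => E o j) (ht j)
  have hE0 : ∀ o j, 0 ≤ E o j := by
    intro o j
    have h1 := ((hp o).fm (φ o)).na (e o j)
    rw [(hE o).eig, (hE o).orth, if_pos rfl, mul_one] at h1
    exact h1
  have hκb : ∀ o j, |κ o j| ≤ 2 * K + 2 := by
    intro o j
    have hS := (F o).S_le 0
    have hh := (F o).h_le 0
    rw [hθ.zero] at hh
    simp only [hθ.zero] at hS
    have h1 := (ka_facts (H.surf o) (hp o) (φ o) (h o) (S o) (H.sym o) (H.cont o)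
      (by linarith) hS (e o) (E o) (hE o) j).2
    show |ka (cof D (A o)) μ (i o) (S o) (h o) (φ o) (e o j) (E o j)| ≤ 2 * K + 2
    linarith
  have hmd := fun j => diff_meas (fun t o => E (θ t o) j) (fun t => (hm j).comp (hθm t))
    (fun o => hcont o j)
  -- the null set
  have hnull : ∀ᵐ o ∂P, ∀ j, DifferentiableAt ℝ (fun t : ℝ => E (θ t o) j) 0 := by
    rw [ae_all_iff]
    intro j
    exact Pool.Agent.Y941.QR.qn Ω P θ hθ _ (hmd j).1.compl (by
      intro o
      filter_upwards [hd2 o] with t ht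
      exact fun hn => hn (ht j).differentiableAt)
  have hpt : ∀ o, (∀ j, DifferentiableAt ℝ (fun t : ℝ => E (θ t o) j) 0) →
      ∀ j, HasDerivAt (fun t : ℝ => E (θ t o) j) (-(κ o j * E o j)) 0 := by
    intro o hdiff j
    have hex : ∃ i, E o i = E o j := ⟨j, rfl⟩
    classical
    obtain ⟨i0, hi0, hmin⟩ : ∃ i0, E o i0 = E o j ∧ ∀ l, l < i0 → E o l < E o i0 := by
      refine ⟨Nat.find hex, Nat.find_spec hex, fun l hl => ?_⟩
      have h1 : E o l ≤ E o (Nat.find hex) := (hE o).mono hl.le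
      have h2 : E o l ≠ E o (Nat.find hex) := by
        intro h3
        exact Nat.find_min hex hl (h3.trans (Nat.find_spec hex))
      exact lt_of_le_of_ne h1 h2
    have h1 : HasDerivAt (fun t : ℝ => E (θ t o) i0) (-(κ o j * E o j)) 0 := by
      refine Pool.Agent.Y319.QR.der_of_upper _ (hdiff i0) fun ε hε => ?_
      have hz : θ 0 o = o := hθ.zero o
      have h3 : E (θ 0 o) i0 = E (θ 0 o) j := by rw [hz]; exact hi0
      have h4 : ∀ l, l < i0 → E (θ 0 o) l < E (θ 0 o) i0 := by rw [hz]; exact hmin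
      obtain ⟨δ, hδ, hup⟩ := (F o).upper (fun t => i (θ t o)) (fun t => a (θ t o))
        (fun t => b (θ t o)) (fun t => hp (θ t o)) (fun t => e (θ t o)) (fun t => E (θ t o))
        (fun t => hE (θ t o)) i0 j 0 h3 h4 ε hε
      refine ⟨δ, hδ, fun τ hτ => ?_⟩
      have h2 : E (θ (0 + τ) o) i0 ≤ E (θ 0 o) i0 * (1 - κ (θ 0 o) j * τ) + ε * |τ| := hup τ hτ
      rw [hz, zero_add] at h2
      show E (θ τ o) i0 ≤ E (θ 0 o) i0 + _ + _
      rw [hz]
      refine h2.trans (le_of_eq ?_)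
      rw [hi0]
      ring
    have hij : i0 ≤ j := by
      by_contra hlt
      push Not at hlt
      have := hmin j hlt
      rw [hi0] at this
      exact lt_irrefl _ this
    exact Pool.Agent.Y319.QR.der_of_touch h1 (hdiff j) (fun t => (hE (θ t o)).mono hij)
      (by rw [hθ.zero]; exact hi0)
  -- the measurable version
  have hC : 0 ≤ 2 * K + 2 := by linarith
  let X : ℕ → Ω → ℝ := fun j o => cl (2 * K + 2)
    (-(deriv (fun t : ℝ => E (θ t o) j) 0) / E o j)
  have hXm : ∀ j, Measurable (X j) := fun j =>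
    measurable_const.max (measurable_const.min ((hmd j).2.neg.div (hm j)))
  have hXe : ∀ o j, HasDerivAt (fun t : ℝ => E (θ t o) j) (-(κ o j * E o j)) 0 →
      X j o = κ o j := by
    intro o j hd
    show cl _ _ = _
    rw [hd.deriv, neg_neg]
    rcases (hE0 o j).eq_or_lt with h1 | h1
    · rw [← h1, div_zero, cl_eq (by rw [abs_zero]; exact hC)]
      show 0 = ka (cof D (A o)) μ (i o) (S o) (h o) (φ o) (e o j) (E o j)
      unfold ka
      rw [← h1, div_zero]
    · rw [mul_div_cancel_right₀ _ h1.ne', cl_eq (hκb o j)]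
  have hae : ∀ j, X j =ᵐ[P] fun o => κ o j := by
    intro j
    filter_upwards [hnull] with o ho
    exact hXe o j (hpt o ho j)
  -- the mean value
  have hA : ∀ ψ : C(M, ℝ), 0 < ∫ x, Real.exp (ψ x) ∂μ := (hp o0).pos
  have hAm : Measurable fun o => ∫ x, Real.exp (φ o x) ∂μ := by
    have h1 : Measurable fun o => 4 * π / ∫ x, Real.exp (φ o x) ∂μ := by
      refine measurable_of_tendsto_metrizable (f := fun (j : ℕ) o => E o j / ((j : ℝ) + 1))
        (fun j => (hm j).div_const _) ?_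
      rw [tendsto_pi_nhds]
      intro o
      refine ((hp o).wl (φ o)).congr fun j => ?_
      rw [Pool.Agent.Y592.QE.mm _ (a o) (b o (φ o)) ((hp o).fm _) (e o) (E o) (hE o) j]
    have h2 : (fun o => ∫ x, Real.exp (φ o x) ∂μ) =
        fun o => 4 * π / (4 * π / ∫ x, Real.exp (φ o x) ∂μ) := by
      funext o
      have := (hA (φ o)).ne'
      have hpi := Real.pi_ne_zero
      field_simp
    rw [h2]
    exact measurable_const.div h1
  have hAd : ∀ o t, HasDerivAt (fun s : ℝ => Real.log (∫ x, Real.exp (φ (θ s o) x) ∂μ))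
      (avg μ (h (θ t o)) (φ (θ t o))) t := fun o t =>
    (area_der (φ := fun t => φ (θ t o)) hK (F o).derφ (F o).lipφ (F o).h_le t).log (hA _).ne'
  have hYm : Measurable fun o => avg μ (h o) (φ o) := by
    have h1 := (diff_meas (fun t o => Real.log (∫ x, Real.exp (φ (θ t o) x) ∂μ))
      (fun t => Real.measurable_log.comp (hAm.comp (hθm t)))
      (fun o => continuous_iff_continuousAt.2 fun t => (hAd o t).continuousAt)).2
    have h2 : (fun o => avg μ (h o) (φ o)) =
        fun o => deriv (fun t => Real.log (∫ x, Real.exp (φ (θ t o) x) ∂μ)) 0 := by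
      funext o
      rw [(hAd o 0).deriv, hθ.zero]
    rw [h2]
    exact h1
  have hYb : ∀ o, |avg μ (h o) (φ o)| ≤ 2 * K + 2 := by
    intro o
    have hh := (F o).h_le 0
    rw [hθ.zero] at hh
    exact (Pool.Agent.Y155.QR.avg_le μ hA (φ o) (h o)).trans (by linarith)
  refine ⟨fun j => (hXm j).aestronglyMeasurable.congr (hae j), hYm, hκb, hYb, fun χ hχ => ?_⟩
  have hmain := Pool.Agent.Y941.QR.qw Ω P θ hθ X (fun o => avg μ (h o) (φ o)) (2 * K + 2)
    hXm hYm (fun j o => cl_le hC _) hYb (by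
      intro o χ' hχ'
      have h1 := (hline o).2.2 χ' hχ'
      refine h1.congr fun j => ?_
      refine integral_congr_ae ?_
      filter_upwards [hd2 o] with t ht
      show χ' t * κ (θ t o) j = χ' t * X j (θ t o)
      rw [hXe (θ t o) j (ht j)]) χ hχ
  refine hmain.congr fun j => ?_
  refine integral_congr_ae ?_
  filter_upwards [hae j] with o ho
  rw [ho]

end

end Pool.Agent.K4H46.QS
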