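import Pool.Agent.Y708.QE.Gr

/-!
# Gradients in two coframes: pointwise estimates
-/

set_option autoImplicit false

open Set Filter Topology MeasureTheory
open scoped Real ContDiff

noncomputable section

namespace Pool.Agent.K4H46.QS

open Pool.Agent.Y262.QE Pool.Agent.Y708.QE

/-- the gradient for the coframe `A'` of a covector whose gradient for the coframe `A` is `G` -/
def cg (A A' : ℂ →L[ℝ] ℂ) (G : ℂ) : ℂ := grd A' ((innerSL ℝ G).comp A)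

lemma cg_grd {A : ℂ →L[ℝ] ℂ} (hA : A.det ≠ 0) (A' : ℂ →L[ℝ] ℂ) (P : ℂ →L[ℝ] ℝ) :
    cg A A' (grd A P) = grd A' P := by
  unfold cg
  congr 1
  ext v
  show inner ℝ (grd A P) (A v) = P v
  rw [inner_grd, inv_apply' hA]

lemma inner_cg (A A' : ℂ →L[ℝ] ℂ) (G w : ℂ) :
    inner ℝ (cg A A' G) w = inner ℝ G (A (A'.inverse w)) := by
  unfold cg
  rw [inner_grd]
  rfl

lemma cg_add (A A' : ℂ →L[ℝ] ℂ) (G G' : ℂ) : cg A A' (G + G') = cg A A' G + cg A A' G' := by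
  apply ext_inner_right ℝ
  intro w
  rw [inner_cg, inner_add_left, inner_add_left, inner_cg, inner_cg]

lemma cg_smul (A A' : ℂ →L[ℝ] ℂ) (c : ℝ) (G : ℂ) : cg A A' (c • G) = c • cg A A' G := by
  apply ext_inner_right ℝ
  intro w
  rw [inner_cg, real_inner_smul_left, real_inner_smul_left, inner_cg]

lemma norm_cg {A A' : ℂ →L[ℝ] ℂ} (hA' : A'.det ≠ 0) {c : ℝ} (hc : 0 ≤ c)
    (h : ∀ v, ‖A v‖ ^ 2 ≤ c * ‖A' v‖ ^ 2) (G : ℂ) : ‖cg A A' G‖ ^ 2 ≤ c * ‖G‖ ^ 2 := by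
  have h1 : ‖cg A A' G‖ ^ 2 = inner ℝ G (A (A'.inverse (cg A A' G))) := by
    rw [← real_inner_self_eq_norm_sq, inner_cg]
  have h2 : inner ℝ G (A (A'.inverse (cg A A' G))) ≤ ‖G‖ * ‖A (A'.inverse (cg A A' G))‖ :=
    real_inner_le_norm _ _
  have h3 := h (A'.inverse (cg A A' G))
  rw [inv_apply hA'] at h3
  set r := ‖A (A'.inverse (cg A A' G))‖
  set p := ‖cg A A' G‖
  have hp : 0 ≤ p := norm_nonneg _
  have hG : 0 ≤ ‖G‖ := norm_nonneg _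
  have hr : 0 ≤ r := norm_nonneg _
  have h4 : p ^ 2 ≤ ‖G‖ * r := by linarith
  rcases hp.eq_or_lt with h0 | h0
  · have h5 : p ^ 2 = 0 := by rw [← h0]; norm_num
    rw [h5]; positivity
  have h5 : p ^ 2 * p ^ 2 ≤ ‖G‖ ^ 2 * (c * p ^ 2) := by
    calc p ^ 2 * p ^ 2 ≤ (‖G‖ * r) * (‖G‖ * r) := mul_le_mul h4 h4 (by positivity) (by positivity)
      _ = ‖G‖ ^ 2 * r ^ 2 := by ring
      _ ≤ ‖G‖ ^ 2 * (c * p ^ 2) := mul_le_mul_of_nonneg_left h3 (by positivity)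
  have h6 : 0 < p ^ 2 := by positivity
  nlinarith

/-- the Cauchy-Schwarz inequality for a symmetric form bounded by a metric -/
lemma form_cs {A : ℂ →L[ℝ] ℂ} {S : ℂ →L[ℝ] ℂ →L[ℝ] ℝ} {K : ℝ} (hS : ∀ v w, S v w = S w v)
    (hSb : ∀ v, |S v v| ≤ K * ‖A v‖ ^ 2) (v w : ℂ) :
    (S v w) ^ 2 ≤ (K * ‖A v‖ ^ 2) * (K * ‖A w‖ ^ 2) := by
  have h := discrim_le_zero (a := K * ‖A v‖ ^ 2) (b := -(2 * S v w)) (c := K * ‖A w‖ ^ 2) (by
    intro c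
    have h1 := hSb (c • v + w)
    have h2 := hSb (c • v - w)
    have e1 : S (c • v + w) (c • v + w) = c ^ 2 * S v v + 2 * c * S v w + S w w := by
      simp only [map_add, map_smul, add_apply, smul_apply, smul_eq_mul]
      rw [hS w v]; ring
    have e2 : S (c • v - w) (c • v - w) = c ^ 2 * S v v - 2 * c * S v w + S w w := by
      simp only [map_sub, map_smul, sub_apply, smul_apply, smul_eq_mul]
      rw [hS w v]; ring
    have n1 : ‖A (c • v + w)‖ ^ 2 + ‖A (c • v - w)‖ ^ 2 = 2 * (c ^ 2 * ‖A v‖ ^ 2 + ‖A w‖ ^ 2) := by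
      have := parallelogram_law_with_norm ℝ (c • A v) (A w)
      rw [map_add, map_sub, map_smul]
      rw [norm_smul, Real.norm_eq_abs] at this
      have h3 : |c| * ‖A v‖ * (|c| * ‖A v‖) = c ^ 2 * ‖A v‖ ^ 2 := by
        have := abs_mul_abs_self c
        calc |c| * ‖A v‖ * (|c| * ‖A v‖) = (|c| * |c|) * ‖A v‖ ^ 2 := by ring
          _ = c ^ 2 * ‖A v‖ ^ 2 := by rw [this]; ring
      nlinarith
    rw [e1] at h1
    rw [e2] at h2
    obtain ⟨-, u2⟩ := abs_le.1 h1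
    obtain ⟨w1, -⟩ := abs_le.1 h2
    have n2 : K * ‖A (c • v + w)‖ ^ 2 + K * ‖A (c • v - w)‖ ^ 2 =
        2 * (K * ‖A v‖ ^ 2 * (c * c)) + 2 * (K * ‖A w‖ ^ 2) := by
      rw [← mul_add, n1]; ring
    nlinarith)
  rw [discrim] at h
  nlinarith

lemma norm_cg_der {A A' : ℂ →L[ℝ] ℂ} (hA : A.det ≠ 0) (hA' : A'.det ≠ 0)
    {S : ℂ →L[ℝ] ℂ →L[ℝ] ℝ} {K ε τ : ℝ} (hK : 0 ≤ K) (hε : 0 < ε) (hS : ∀ v w, S v w = S w v)
    (hSb : ∀ v, |S v v| ≤ K * ‖A v‖ ^ 2)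
    (h : ∀ v, ‖A v‖ ^ 2 + τ * S v v - ε * |τ| * ‖A v‖ ^ 2 ≤ ‖A' v‖ ^ 2)
    (h1 : K * |τ| ≤ 1 / 4) (h2 : 8 * ε * |τ| ≤ 1) (h3 : 4 * K ^ 2 * |τ| ≤ ε) (G : ℂ) :
    ‖cg A A' G‖ ^ 2 ≤ ‖G‖ ^ 2 - τ * S (A.inverse G) (A.inverse G) + 3 * ε * |τ| * ‖G‖ ^ 2 := by
  set v' := A'.inverse (cg A A' G) with hv'
  set w := A.inverse G with hw
  set y := v' - w with hy
  have hAw : A w = G := inv_apply hA G
  have hAv : A v' = G + A y := by rw [hy, map_sub, hAw]; abel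
  have hA'v : A' v' = cg A A' G := inv_apply hA' _
  have e0 : ‖cg A A' G‖ ^ 2 = inner ℝ G (A v') := by
    rw [← real_inner_self_eq_norm_sq, inner_cg]
  have e1 := h v'
  rw [hA'v] at e1
  have e2 : ‖A v'‖ ^ 2 = ‖G‖ ^ 2 + 2 * inner ℝ G (A y) + ‖A y‖ ^ 2 := by
    rw [hAv, norm_add_sq_real]
  have e3 : inner ℝ G (A v') = ‖G‖ ^ 2 + inner ℝ G (A y) := by
    rw [hAv, inner_add_right, real_inner_self_eq_norm_sq]
  have e4 : S v' v' = S w w + 2 * S w y + S y y := by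
    have : v' = w + y := by rw [hy]; abel
    rw [this]
    simp only [map_add, add_apply]
    rw [hS y w]; ring
  have hcs := form_cs hS hSb w y
  rw [hAw] at hcs
  have hyy := hSb y
  set g := ‖G‖
  set r := ‖A y‖
  have hg : 0 ≤ g := norm_nonneg _
  have hr : 0 ≤ r := norm_nonneg _
  have ht := abs_nonneg τ
  have hτ2 : |τ| ^ 2 = τ ^ 2 := sq_abs τ
  -- the cross term
  have c1 : |2 * τ * S w y| ≤ 4 * K ^ 2 * |τ| * |τ| * g ^ 2 + r ^ 2 / 4 := by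
    have h5 : (2 * τ * S w y) ^ 2 ≤ (2 * K * |τ| * g * r) ^ 2 := by
      have := mul_le_mul_of_nonneg_left hcs (by positivity : (0:ℝ) ≤ 4 * τ ^ 2)
      calc (2 * τ * S w y) ^ 2 = 4 * τ ^ 2 * (S w y) ^ 2 := by ring
        _ ≤ 4 * τ ^ 2 * ((K * g ^ 2) * (K * r ^ 2)) := this
        _ = (2 * K * |τ| * g * r) ^ 2 := by rw [← hτ2]; ring
    have h6 : |2 * τ * S w y| ≤ 2 * K * |τ| * g * r := abs_le_of_sq_le_sq h5 (by positivity)
    nlinarith [sq_nonneg (2 * K * |τ| * g - r / 2)]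
  have c2 : |τ * S y y| ≤ r ^ 2 / 4 := by
    rw [abs_mul]
    have := mul_le_mul_of_nonneg_left hyy ht
    have h6 := mul_le_mul_of_nonneg_right h1 (sq_nonneg r)
    nlinarith
  have c3 : ε * |τ| * ‖A v'‖ ^ 2 ≤ 2 * ε * |τ| * g ^ 2 + r ^ 2 / 4 := by
    have h5 : ‖A v'‖ ≤ g + r := by rw [hAv]; exact norm_add_le _ _
    have h6 : ‖A v'‖ ^ 2 ≤ 2 * g ^ 2 + 2 * r ^ 2 := by
      have := pow_le_pow_left₀ (norm_nonneg _) h5 2
      nlinarith [sq_nonneg (g - r)]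
    have h7 := mul_le_mul_of_nonneg_left h6 (by positivity : 0 ≤ ε * |τ|)
    have h8 := mul_le_mul_of_nonneg_right h2 (sq_nonneg r)
    nlinarith
  have c4 : 4 * K ^ 2 * |τ| * |τ| * g ^ 2 ≤ ε * |τ| * g ^ 2 := by
    have := mul_le_mul_of_nonneg_right h3 (by positivity : 0 ≤ |τ| * g ^ 2)
    nlinarith
  have d1 := (abs_le.1 c1).1
  have d2 := (abs_le.1 c2).1
  have hx : τ * S v' v' = τ * S w w + 2 * τ * S w y + τ * S y y := by rw [e4]; ring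
  have hr2 := sq_nonneg r
  nlinarith

end Pool.Agent.K4H46.QS
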