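import Pool.Agent.K4H46.QS.Def
import Pool.Agent.K4H46.QS.Pt

/-!
# Fields of linear maps and operators in `L²`
-/

set_option autoImplicit false

open Set Filter Topology MeasureTheory
open scoped Real ContDiff

noncomputable section

namespace Pool.Agent.K4H46.QS

open Pool.Agent.Y262.QE Pool.Agent.Y708.QE

section

variable {M : Type} [MeasurableSpace M]

/-- the operator in `L²` which belongs to a bounded measurable field of linear maps -/
theorem mulL (μ : Measure M) (L : M → ℂ → ℂ) (hadd : ∀ x G G', L x (G + G') = L x G + L x G')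
    (hsmul : ∀ x (c : ℝ) G, L x (c • G) = c • L x G) (h1 : Measurable fun x => L x 1)
    (hI : Measurable fun x => L x Complex.I) (C : ℝ) (hC : ∀ x G, ‖L x G‖ ≤ C * ‖G‖) :
    ∃ T : Lp ℂ 2 μ →L[ℝ] Lp ℂ 2 μ, ∀ g : Lp ℂ 2 μ, (T g : M → ℂ) =ᵐ[μ] fun x => L x (g x) := by
  have hdec : ∀ x G, L x G = (G.re : ℝ) • L x 1 + (G.im : ℝ) • L x Complex.I := by
    intro x G
    rw [← hsmul, ← hsmul, ← hadd]
    congr 1
    apply Complex.ext <;> simp
  have hmeas : ∀ g : M → ℂ, Measurable g → Measurable fun x => L x (g x) := by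
    intro g hg
    simp only [hdec _ (g _)]
    exact ((Complex.measurable_re.comp hg).smul h1).add ((Complex.measurable_im.comp hg).smul hI)
  have hm : ∀ g : Lp ℂ 2 μ, MemLp (fun x => L x (g x)) 2 μ := fun g => by
    refine MemLp.of_le_mul (c := C) (Lp.memLp g)
      (hmeas _ (Lp.stronglyMeasurable g).measurable).aestronglyMeasurable
      (ae_of_all _ fun x => hC x _)
  let T0 : Lp ℂ 2 μ →ₗ[ℝ] Lp ℂ 2 μ :=
    { toFun := fun g => (hm g).toLp _
      map_add' := by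
        intro f g
        apply Lp.ext
        filter_upwards [(hm (f + g)).coeFn_toLp, (hm f).coeFn_toLp, (hm g).coeFn_toLp,
          Lp.coeFn_add f g, Lp.coeFn_add ((hm f).toLp _) ((hm g).toLp _)] with x h1 h2 h3 h4 h5
        rw [h1, h5, Pi.add_apply, h2, h3, h4, Pi.add_apply, hadd]
      map_smul' := by
        intro c f
        apply Lp.ext
        filter_upwards [(hm (c • f)).coeFn_toLp, (hm f).coeFn_toLp,
          Lp.coeFn_smul c f, Lp.coeFn_smul c ((hm f).toLp _)] with x h1 h2 h3 h4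
        rw [h1, RingHom.id_apply, h4, Pi.smul_apply, h2, h3, Pi.smul_apply, hsmul] }
  have hT0 : ∀ g : Lp ℂ 2 μ, (T0 g : M → ℂ) =ᵐ[μ] fun x => L x (g x) :=
    fun g => (hm g).coeFn_toLp
  have hb : ∀ g : Lp ℂ 2 μ, ‖T0 g‖ ≤ C * ‖g‖ := by
    intro g
    apply Lp.norm_le_mul_norm_of_ae_le_mul
    filter_upwards [hT0 g] with x h1
    rw [h1]
    exact hC x _
  exact ⟨T0.mkContinuous C hb, hT0⟩

end

section

variable {M : Type}

/-- a field of maps given in the charts -/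
def fld (D : Data M) (c : Fin D.N → M → ℂ → ℂ) (x : M) (G : ℂ) : ℂ :=
  ∑ i, (D.pc i).indicator (fun x => c i x G) x

theorem fld_eq (D : Data M) (c : Fin D.N → M → ℂ → ℂ) {i : Fin D.N} {x : M} (hi : x ∈ D.pc i)
    (G : ℂ) : fld D c x G = c i x G := by
  unfold fld
  rw [Finset.sum_eq_single i]
  · exact Set.indicator_of_mem hi _
  · intro j _ hj
    exact Set.indicator_of_notMem (fun h => hj (pc_disj h hi)) _
  · intro h
    exact absurd (Finset.mem_univ i) h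

theorem ten_eq (D : Data M) (S : Fin D.N → ℂ → ℂ →L[ℝ] ℂ →L[ℝ] ℝ) {i : Fin D.N} {x : M}
    (hi : x ∈ D.pc i) (w : ℂ) : ten D S x w = S i (D.φ i x) ((D.A i (D.φ i x)).inverse w)
      ((D.A i (D.φ i x)).inverse w) := by
  unfold ten
  rw [Finset.sum_eq_single i]
  · exact Set.indicator_of_mem hi _
  · intro j _ hj
    exact Set.indicator_of_notMem (fun h => hj (pc_disj h hi)) _
  · intro h
    exact absurd (Finset.mem_univ i) h

variable [MetricSpace M] [CompactSpace M] [MeasurableSpace M] [BorelSpace M]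
  {μ : Measure M} {D : Data M}

theorem fld_meas (hD : D.IsSurf μ) (c : Fin D.N → M → ℂ → ℂ) (G : ℂ)
    (hc : ∀ i, ContinuousOn (fun x => c i x G) (D.U i)) : Measurable fun x => fld D c x G := by
  classical
  unfold fld
  refine Finset.measurable_sum _ fun i _ => ?_
  rw [← Set.piecewise_eq_indicator]
  exact ContinuousOn.measurable_piecewise ((hc i).mono fun x hx => hx.1) continuousOn_const
    (pc_meas hD i)

/-- the change of the gradient from the coframes of `D` to the coframes `A'` -/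
def chg (D : Data M) (A' : Fin D.N → ℂ → ℂ →L[ℝ] ℂ) : M → ℂ → ℂ :=
  fld D fun i x G => cg (D.A i (D.φ i x)) (A' i (D.φ i x)) G

omit [MetricSpace M] [CompactSpace M] [MeasurableSpace M] [BorelSpace M] in
theorem chg_eq (A' : Fin D.N → ℂ → ℂ →L[ℝ] ℂ) {i : Fin D.N} {x : M} (hi : x ∈ D.pc i) (G : ℂ) :
    chg D A' x G = cg (D.A i (D.φ i x)) (A' i (D.φ i x)) G := fld_eq D _ hi G

theorem chg_meas (hD : D.IsSurf μ) (A' : Fin D.N → ℂ → ℂ →L[ℝ] ℂ) (hD' : (cof D A').IsSurf μ)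
    (G : ℂ) : Measurable fun x => chg D A' x G := by
  refine fld_meas hD _ G fun i => ?_
  have hm : MapsTo (D.φ i) (D.U i) (D.T i) := fun x hx => mem_T hx
  have hA := (hD.contA i).comp (hD.contφ i) hm
  have hA' : ContinuousOn (fun x => A' i (D.φ i x)) (D.U i) :=
    (hD'.contA i).comp (hD.contφ i) hm
  exact grd_cont hA' (fun x hx => hD'.det i _ (hm hx)) (continuousOn_const.clm_comp hA)

/-- the gradient for the coframes `A'` -/
theorem chg_gr (hD : D.IsSurf μ) (A' : Fin D.N → ℂ → ℂ →L[ℝ] ℂ) (F : M → ℝ) (x : M) :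
    chg D A' x (D.gr F x) = (cof D A').gr F x := by
  obtain ⟨i, hi⟩ := pc_ex hD x
  rw [chg_eq A' hi, gr_eq hi]
  have h2 : (cof D A').gr F x = (cof D A').gc i F x := gr_eq (D := cof D A') (i := i) hi
  rw [h2]
  exact cg_grd (hD.det i _ (mem_T hi.1)) _ _

theorem chg_op (hD : D.IsSurf μ) (A' : Fin D.N → ℂ → ℂ →L[ℝ] ℂ) (hD' : (cof D A').IsSurf μ)
    {c : ℝ} (hc : 0 ≤ c) (h : ∀ i, ∀ z ∈ D.T i, ∀ v, ‖D.A i z v‖ ^ 2 ≤ c * ‖A' i z v‖ ^ 2) :
    ∃ T : Lp ℂ 2 μ →L[ℝ] Lp ℂ 2 μ, ∀ g : Lp ℂ 2 μ,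
      (T g : M → ℂ) =ᵐ[μ] fun x => chg D A' x (g x) := by
  refine mulL μ (chg D A') ?_ ?_ (chg_meas hD A' hD' 1) (chg_meas hD A' hD' Complex.I)
    (Real.sqrt c) ?_
  · intro x G G'
    obtain ⟨i, hi⟩ := pc_ex hD x
    rw [chg_eq A' hi, chg_eq A' hi, chg_eq A' hi, cg_add]
  · intro x r G
    obtain ⟨i, hi⟩ := pc_ex hD x
    rw [chg_eq A' hi, chg_eq A' hi, cg_smul]
  · intro x G
    obtain ⟨i, hi⟩ := pc_ex hD x
    rw [chg_eq A' hi]
    have h1 := norm_cg (hD'.det i _ (mem_T hi.1)) hc (h i _ (mem_T hi.1)) G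
    have h2 : ‖cg (D.A i (D.φ i x)) (A' i (D.φ i x)) G‖ ^ 2 ≤ (Real.sqrt c * ‖G‖) ^ 2 := by
      rw [mul_pow, Real.sq_sqrt hc]
      exact h1
    exact (sq_le_sq₀ (norm_nonneg _) (by positivity)).1 h2

omit [CompactSpace M] [MeasurableSpace M] [BorelSpace M] in
theorem inv_cont {s : Set M} {A : M → ℂ →L[ℝ] ℂ}
    (hA : ContinuousOn A s) (hd : ∀ x ∈ s, (A x).det ≠ 0) :
    ContinuousOn (fun x => (A x).inverse) s := by
  intro x hx
  have h1 := contDiffAt_map_inverse (𝕜 := ℝ) (n := 0)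
    ((A x).toContinuousLinearEquivOfDetNeZero (hd x hx))
  rw [(A x).coe_toContinuousLinearEquivOfDetNeZero (hd x hx)] at h1
  exact h1.continuousAt.comp_continuousWithinAt (hA x hx)

/-- the linear map which belongs to a tensor -/
def sop (D : Data M) (S : Fin D.N → ℂ → ℂ →L[ℝ] ℂ →L[ℝ] ℝ) : M → ℂ → ℂ :=
  fld D fun i x G => grd (D.A i (D.φ i x)) (S i (D.φ i x) ((D.A i (D.φ i x)).inverse G))

omit [MetricSpace M] [CompactSpace M] [MeasurableSpace M] [BorelSpace M] in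
theorem sop_eq (S : Fin D.N → ℂ → ℂ →L[ℝ] ℂ →L[ℝ] ℝ) {i : Fin D.N} {x : M} (hi : x ∈ D.pc i)
    (G : ℂ) : sop D S x G =
      grd (D.A i (D.φ i x)) (S i (D.φ i x) ((D.A i (D.φ i x)).inverse G)) := fld_eq D _ hi G

theorem sop_meas (hD : D.IsSurf μ) (S : Fin D.N → ℂ → ℂ →L[ℝ] ℂ →L[ℝ] ℝ)
    (hcont : ∀ i, ContinuousOn (S i) (D.T i)) (G : ℂ) : Measurable fun x => sop D S x G := by
  refine fld_meas hD _ G fun i => ?_
  have hm : MapsTo (D.φ i) (D.U i) (D.T i) := fun x hx => mem_T hx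
  have hA := (hD.contA i).comp (hD.contφ i) hm
  have hd : ∀ x ∈ D.U i, (D.A i (D.φ i x)).det ≠ 0 := fun x hx => hD.det i _ (hm hx)
  exact grd_cont hA hd (((hcont i).comp (hD.contφ i) hm).clm_apply
    ((inv_cont hA hd).clm_apply continuousOn_const))

theorem inner_sop (hD : D.IsSurf μ) (S : Fin D.N → ℂ → ℂ →L[ℝ] ℂ →L[ℝ] ℝ) (x : M) (G w : ℂ) :
    ∃ i, x ∈ D.pc i ∧ inner ℝ (sop D S x G) w = S i (D.φ i x) ((D.A i (D.φ i x)).inverse G)
      ((D.A i (D.φ i x)).inverse w) := by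
  obtain ⟨i, hi⟩ := pc_ex hD x
  exact ⟨i, hi, by rw [sop_eq S hi, inner_grd]⟩

/-- the form in `L²` which belongs to a tensor -/
theorem ten_op (hD : D.IsSurf μ) (S : Fin D.N → ℂ → ℂ →L[ℝ] ℂ →L[ℝ] ℝ)
    (hS : ∀ i z v w, S i z v w = S i z w v) (hcont : ∀ i, ContinuousOn (S i) (D.T i)) {K : ℝ}
    (hK : 0 ≤ K) (hSb : ∀ i, ∀ z ∈ D.T i, ∀ v, |S i z v v| ≤ K * ‖D.A i z v‖ ^ 2) :
    ∃ σ : Lp ℂ 2 μ →L[ℝ] Lp ℂ 2 μ →L[ℝ] ℝ, (∀ f g, σ f g = σ g f) ∧
      ∀ g : Lp ℂ 2 μ, σ g g = ∫ x, ten D S x (g x) ∂μ ∧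
        Integrable (fun x => ten D S x (g x)) μ := by
  obtain ⟨T, hT⟩ := mulL μ (sop D S) (by
    intro x G G'
    obtain ⟨i, hi⟩ := pc_ex hD x
    rw [sop_eq S hi, sop_eq S hi, sop_eq S hi, map_add, map_add]
    have := grd_lin (D.A i (D.φ i x)) (S i (D.φ i x) ((D.A i (D.φ i x)).inverse G))
      (S i (D.φ i x) ((D.A i (D.φ i x)).inverse G')) 1 1
    simpa using this) (by
    intro x r G
    obtain ⟨i, hi⟩ := pc_ex hD x
    rw [sop_eq S hi, sop_eq S hi, map_smul, map_smul]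
    have := grd_lin (D.A i (D.φ i x)) (S i (D.φ i x) ((D.A i (D.φ i x)).inverse G))
      (S i (D.φ i x) ((D.A i (D.φ i x)).inverse G)) r 0
    simpa using this) (sop_meas hD S hcont 1) (sop_meas hD S hcont Complex.I) K (by
    intro x G
    obtain ⟨i, hi⟩ := pc_ex hD x
    have hd := hD.det i _ (mem_T hi.1)
    have h1 : ‖sop D S x G‖ ^ 2 = S i (D.φ i x) ((D.A i (D.φ i x)).inverse G)
        ((D.A i (D.φ i x)).inverse (sop D S x G)) := by
      rw [← real_inner_self_eq_norm_sq]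
      conv_lhs => rw [sop_eq S hi]
      rw [inner_grd, sop_eq S hi]
    have h2 := form_cs (hS i (D.φ i x)) (hSb i _ (mem_T hi.1))
      ((D.A i (D.φ i x)).inverse G) ((D.A i (D.φ i x)).inverse (sop D S x G))
    rw [inv_apply hd, inv_apply hd, ← h1] at h2
    set p := ‖sop D S x G‖
    have hp : 0 ≤ p := norm_nonneg _
    have h3 : (p ^ 2) ^ 2 ≤ (K * ‖G‖ * p) ^ 2 := by nlinarith
    have h4 : p ^ 2 ≤ K * ‖G‖ * p := (sq_le_sq₀ (by positivity) (by positivity)).1 h3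
    rcases hp.eq_or_lt with h0 | h0
    · rw [← h0]; positivity
    · nlinarith)
  have hval : ∀ f g : Lp ℂ 2 μ, inner ℝ (T f) g = ∫ x, inner ℝ (sop D S x (f x)) (g x) ∂μ := by
    intro f g
    rw [L2.inner_def]
    refine integral_congr_ae ?_
    filter_upwards [hT f] with x hx
    rw [hx]
  refine ⟨(innerSL ℝ).comp T, ?_, fun g => ⟨?_, ?_⟩⟩
  · intro f g
    show inner ℝ (T f) g = inner ℝ (T g) f
    rw [hval, hval]
    refine integral_congr_ae (Eventually.of_forall fun x => ?_)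
    show inner ℝ (sop D S x (f x)) (g x) = inner ℝ (sop D S x (g x)) (f x)
    obtain ⟨i, hi⟩ := pc_ex hD x
    rw [sop_eq S hi, sop_eq S hi, inner_grd, inner_grd, hS]
  · show inner ℝ (T g) g = _
    rw [hval]
    refine integral_congr_ae (Eventually.of_forall fun x => ?_)
    show inner ℝ (sop D S x (g x)) (g x) = ten D S x (g x)
    obtain ⟨i, hi⟩ := pc_ex hD x
    rw [sop_eq S hi, inner_grd, ten_eq D S hi]
  · refine (L2.integrable_inner (T g) g).congr ?_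
    filter_upwards [hT g] with x hx
    obtain ⟨i, hi⟩ := pc_ex hD x
    rw [hx, sop_eq S hi, inner_grd, ten_eq D S hi]

end

end Pool.Agent.K4H46.QS
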