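import Pool.Agent.K4H46.QS.Up
import Pool.Agent.Y155.QR.One

/-!
# One parameter families of metrics
-/

set_option autoImplicit false

open Set Filter Topology MeasureTheory
open scoped Real

noncomputable section

namespace Pool.Agent.K4H46.QS

open Pool.Agent.Y262.QE Pool.Agent.Y264.QR Pool.Agent.Y708.QE

lemma tb {X s K : ℝ} {Y : ℝ → ℝ} (hX : 0 ≤ X) (hK : 0 ≤ K)
    (hd : ∀ ε : ℝ, 0 < ε → ∃ δ : ℝ, 0 < δ ∧ ∀ τ : ℝ, |τ| < δ → |Y τ - X - τ * s| ≤ ε * |τ| * X)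
    (h1 : ∀ τ, Y τ ≤ Real.exp (K * |τ|) * X) (h2 : ∀ τ, X ≤ Real.exp (K * |τ|) * Y τ) :
    |s| ≤ (K + 2) * X := by
  obtain ⟨δ, hδ, H⟩ := hd 1 one_pos
  obtain ⟨r, hr0, hr1, hr2, hr3⟩ : ∃ r : ℝ, 0 < r ∧ r < δ ∧ K * r ≤ 1 ∧ K ^ 2 * r ≤ 1 := by
    refine ⟨min (δ / 2) (min (1 / (K + 1)) (1 / (K ^ 2 + 1))), ?_, ?_, ?_, ?_⟩
    · refine lt_min (by positivity) (lt_min ?_ ?_) <;> positivity
    · exact (min_le_left _ _).trans_lt (by linarith)
    · have h3 : min (δ / 2) (min (1 / (K + 1)) (1 / (K ^ 2 + 1))) ≤ 1 / (K + 1) :=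
        (min_le_right _ _).trans (min_le_left _ _)
      refine (mul_le_mul_of_nonneg_left h3 hK).trans ?_
      rw [mul_one_div, div_le_one (by positivity)]
      linarith
    · have h3 : min (δ / 2) (min (1 / (K + 1)) (1 / (K ^ 2 + 1))) ≤ 1 / (K ^ 2 + 1) :=
        (min_le_right _ _).trans (min_le_right _ _)
      refine (mul_le_mul_of_nonneg_left h3 (sq_nonneg K)).trans ?_
      rw [mul_one_div, div_le_one (by positivity)]
      linarith
  have h3 := H r (by rwa [abs_of_pos hr0])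
  have h4 := h1 r
  have h5 := h2 r
  rw [abs_of_pos hr0] at h3 h4 h5
  have hKr : 0 ≤ K * r := by positivity
  have h6 := Real.abs_exp_sub_one_sub_id_le (x := K * r) (by rwa [abs_of_nonneg hKr])
  have h7 : Real.exp (K * r) ≤ 1 + (K + 1) * r := by
    have h8 := (abs_le.1 h6).2
    have h9 : (K * r) ^ 2 ≤ r := by
      have : (K * r) ^ 2 = (K ^ 2 * r) * r := by ring
      rw [this]
      nlinarith
    linarith
  have h8 : Y r - X ≤ (K + 1) * r * X := by nlinarith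
  have h9 : X - Y r ≤ (K + 1) * r * X := by
    have h10 : (1 - K * r) * X ≤ Y r := by
      have h11 : (1 - K * r) * Real.exp (K * r) ≤ 1 := by
        have h12 := Real.add_one_le_exp (-(K * r))
        have h13 : Real.exp (-(K * r)) * Real.exp (K * r) = 1 := by
          rw [← Real.exp_add]; simp
        have h14 := mul_le_mul_of_nonneg_right h12 (Real.exp_pos (K * r)).le
        rw [h13] at h14
        have h15 : -(K * r) + 1 = 1 - K * r := by ring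
        rwa [h15] at h14
      have hY : 0 ≤ Y r := by
        by_contra hn
        push Not at hn
        have := mul_neg_of_pos_of_neg (Real.exp_pos (K * r)) hn
        linarith
      calc (1 - K * r) * X ≤ (1 - K * r) * (Real.exp (K * r) * Y r) :=
            mul_le_mul_of_nonneg_left h5 (by linarith)
        _ = ((1 - K * r) * Real.exp (K * r)) * Y r := by ring
        _ ≤ 1 * Y r := mul_le_mul_of_nonneg_right h11 hY
        _ = Y r := one_mul _
    nlinarith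
  have h10 : |r * s| ≤ (K + 2) * X * r := by
    obtain ⟨p, q⟩ := abs_le.1 h3
    rw [abs_le]
    constructor <;> nlinarith
  rw [abs_mul, abs_of_pos hr0] at h10
  nlinarith

section

variable {M : Type} [MetricSpace M] [CompactSpace M] [MeasurableSpace M] [BorelSpace M]

/-- a one parameter family of metrics -/
structure Fam (D : Data M) (μ : Measure M) (A : ℝ → Fin D.N → ℂ → ℂ →L[ℝ] ℂ) (φ : ℝ → C(M, ℝ))
    (S : ℝ → Fin D.N → ℂ → ℂ →L[ℝ] ℂ →L[ℝ] ℝ) (h : ℝ → C(M, ℝ)) (K : ℝ) : Prop where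
  surf : ∀ t, (cof D (A t)).IsSurf μ
  lipA : ∀ s t i, ∀ z ∈ D.T i, ∀ v, ‖A s i z v‖ ^ 2 ≤ Real.exp (K * |s - t|) * ‖A t i z v‖ ^ 2
  lipφ : ∀ s t, ‖φ s - φ t‖ ≤ K * |s - t|
  sym : ∀ t i z v w, S t i z v w = S t i z w v
  cont : ∀ t i, ContinuousOn (S t i) (D.T i)
  derA : ∀ t : ℝ, ∀ ε : ℝ, 0 < ε → ∃ δ : ℝ, 0 < δ ∧ ∀ τ : ℝ, |τ| < δ → ∀ i, ∀ z ∈ D.T i, ∀ v,
    |‖A (t + τ) i z v‖ ^ 2 - ‖A t i z v‖ ^ 2 - τ * S t i z v v| ≤ ε * |τ| * ‖A t i z v‖ ^ 2
  derφ : ∀ t, HasDerivAt φ (h t) t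

variable {μ : Measure M} {D : Data M}

theorem Fam.K0 {A φ S h K} (F : Fam D μ A φ S h K) : 0 ≤ K := by
  have h1 := F.lipφ 1 0
  have h2 := norm_nonneg (φ 1 - φ 0)
  norm_num at h1
  linarith

theorem Fam.S_le {A φ S h K} (F : Fam D μ A φ S h K) (t : ℝ) (i : Fin D.N) (z : ℂ)
    (hz : z ∈ D.T i) (v : ℂ) : |S t i z v v| ≤ (K + 2) * ‖A t i z v‖ ^ 2 := by
  refine tb (Y := fun τ => ‖A (t + τ) i z v‖ ^ 2) (sq_nonneg _) F.K0 ?_ ?_ ?_
  · intro ε hε
    obtain ⟨δ, hδ, H⟩ := F.derA t ε hε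
    exact ⟨δ, hδ, fun τ hτ => H τ hτ i z hz v⟩
  · intro τ
    have h1 := F.lipA (t + τ) t i z hz v
    rwa [add_sub_cancel_left] at h1
  · intro τ
    have h1 := F.lipA t (t + τ) i z hz v
    have e : |t - (t + τ)| = |τ| := by
      rw [sub_add_cancel_left, abs_neg]
    rwa [e] at h1

theorem Fam.h_le {A φ S h K} (F : Fam D μ A φ S h K) (t : ℝ) : ‖h t‖ ≤ K := by
  refine (F.derφ t).le_of_lip' F.K0 (Eventually.of_forall fun s => ?_)
  rw [Real.norm_eq_abs]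
  exact F.lipφ s t

/-- the derivative of the logarithm of the eigenvalue -/
def ka (D : Data M) (μ : Measure M) (i : HF D μ →L[ℝ] Lp ℝ 2 μ)
    (S : Fin D.N → ℂ → ℂ →L[ℝ] ℂ →L[ℝ] ℝ) (h φ : C(M, ℝ)) (v : HF D μ) (lam : ℝ) : ℝ :=
  (lam * kap μ i h φ v + ∫ x, ten D S x (v.1.snd x) ∂μ) / lam

theorem ka_facts (hD : D.IsSurf μ) {i a b} (hp : Pk D μ i a b) (φ h : C(M, ℝ))
    (S : Fin D.N → ℂ → ℂ →L[ℝ] ℂ →L[ℝ] ℝ)
    (hS : ∀ i z v w, S i z v w = S i z w v) (hcont : ∀ i, ContinuousOn (S i) (D.T i)) {K : ℝ}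
    (hK : 0 ≤ K) (hSb : ∀ i, ∀ z ∈ D.T i, ∀ v, |S i z v v| ≤ K * ‖D.A i z v‖ ^ 2)
    (e : ℕ → HF D μ) (E : ℕ → ℝ) (hE : Eg a (b φ) e E) (j : ℕ) :
    E j * ka D μ i S h φ (e j) (E j) = E j * kap μ i h φ (e j) +
      ∫ x, ten D S x ((e j).1.snd x) ∂μ ∧ |ka D μ i S h φ (e j) (E j)| ≤ ‖h‖ + K := by
  obtain ⟨k, ksym, k1, k2⟩ := hp.k h
  obtain ⟨σ, σsym, σ1, σ2, σ3⟩ := sig hD hp S hS hcont hK hSb
  have hbj : b φ (e j) (e j) = 1 := by rw [hE.orth, if_pos rfl]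
  have haj : a (e j) (e j) = E j := by rw [hE.eig, hbj, mul_one]
  have h1 := σ2 (e j)
  rw [haj, σ1] at h1
  have h2 := (k1 φ (e j)).2
  rw [(k1 φ (e j)).1, hbj, mul_one] at h2
  have h0 : 0 ≤ E j := by rw [← haj]; exact (hp.fm φ).na _
  unfold ka
  set σ' := ∫ x, ten D S x ((e j).1.snd x) ∂μ
  set k' := kap μ i h φ (e j)
  rcases h0.eq_or_lt with h3 | h3
  · rw [← h3] at h1 ⊢
    rw [mul_zero] at h1
    have h4 := abs_nonpos_iff.1 h1
    rw [h4]
    simp only [zero_mul, add_zero, div_zero, abs_zero, true_and]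
    positivity
  · constructor
    · field_simp
    · rw [abs_div, abs_of_pos h3, div_le_iff₀ h3]
      refine (abs_add_le _ _).trans ?_
      rw [abs_mul, abs_of_pos h3]
      have := mul_le_mul_of_nonneg_left h2 h3.le
      linarith

section av

variable [IsFiniteMeasure μ]

/-- the derivative of the area -/
theorem area_der {φ h : ℝ → C(M, ℝ)} {K : ℝ} (hK : 0 ≤ K) (hd : ∀ t, HasDerivAt φ (h t) t)
    (hl : ∀ s t, ‖φ s - φ t‖ ≤ K * |s - t|) (hh : ∀ t, ‖h t‖ ≤ K) (t : ℝ) :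
    HasDerivAt (fun s : ℝ => ∫ x, Real.exp (φ s x) ∂μ)
      (∫ x, h t x * Real.exp (φ t x) ∂μ) t := by
  refine (hasDerivAt_integral_of_dominated_loc_of_deriv_le
    (F := fun s x => Real.exp (φ s x)) (F' := fun s x => h s x * Real.exp (φ s x))
    (bound := fun _ => K * Real.exp (‖φ t‖ + K))
    (s := Metric.ball t 1) (Metric.ball_mem_nhds t one_pos) ?_ ?_ ?_ ?_ ?_ ?_).2
  · exact Eventually.of_forall fun s =>
      (by fun_prop : Continuous fun x => Real.exp (φ s x)).aestronglyMeasurable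
  · exact Pool.Agent.Y155.QR.int_cont μ (by fun_prop)
  · exact (by fun_prop : Continuous fun x => h t x * Real.exp (φ t x)).aestronglyMeasurable
  · refine ae_of_all _ fun x s hs => ?_
    have h1 : |s - t| ≤ 1 := by
      rw [Metric.mem_ball, Real.dist_eq] at hs
      exact hs.le
    have h2 : φ s x ≤ ‖φ t‖ + K := by
      have h3 : φ t x ≤ ‖φ t‖ := (le_abs_self _).trans ((φ t).norm_coe_le_norm x)
      have h4 : (φ s - φ t) x ≤ ‖φ s - φ t‖ :=
        (le_abs_self _).trans ((φ s - φ t).norm_coe_le_norm x)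
      have h5 := hl s t
      have h6 := mul_le_mul_of_nonneg_left h1 hK
      rw [ContinuousMap.sub_apply] at h4
      linarith
    rw [Real.norm_eq_abs, abs_mul, Real.abs_exp]
    exact mul_le_mul (((h s).norm_coe_le_norm x).trans (hh s)) (Real.exp_le_exp.2 h2)
      (Real.exp_pos _).le hK
  · exact integrable_const _
  · refine ae_of_all _ fun x s _ => ?_
    let L : C(M, ℝ) →L[ℝ] ℝ := ContinuousMap.evalCLM ℝ x
    have h1 : HasDerivAt (fun s : ℝ => φ s x) (h s x) s :=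
      L.hasFDerivAt.comp_hasDerivAt s (hd s)
    have h3 := h1.exp
    rw [mul_comm] at h3
    exact h3

end av

theorem Fam.upper {A φ S h K} (F : Fam D μ A φ S h K)
    (i : ∀ t, HF (cof D (A t)) μ →L[ℝ] Lp ℝ 2 μ)
    (a : ∀ t, HF (cof D (A t)) μ →L[ℝ] HF (cof D (A t)) μ →L[ℝ] ℝ)
    (b : ∀ t, C(M, ℝ) → HF (cof D (A t)) μ →L[ℝ] HF (cof D (A t)) μ →L[ℝ] ℝ)
    (hp : ∀ t, Pk (cof D (A t)) μ (i t) (a t) (b t))
    (e : ∀ t, ℕ → HF (cof D (A t)) μ) (E : ℝ → ℕ → ℝ)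
    (hE : ∀ t, Eg (a t) (b t (φ t)) (e t) (E t)) (m j : ℕ) (t : ℝ) (hmj : E t m = E t j)
    (hl : ∀ l, l < m → E t l < E t m) (ε : ℝ) (hε : 0 < ε) :
    ∃ δ : ℝ, 0 < δ ∧ ∀ τ : ℝ, |τ| < δ → E (t + τ) m ≤
      E t m * (1 - ka (cof D (A t)) μ (i t) (S t) (h t) (φ t) (e t j) (E t j) * τ) + ε * |τ| := by
  have hK := F.K0
  have hev : ∀ t j, Ev (a t) (b t (φ t)) j = E t j := fun t j =>
    Pool.Agent.Y592.QE.mm _ (a t) (b t (φ t)) ((hp t).fm _) (e t) (E t) (hE t) j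
  have hκ : ∀ t j, E t j * ka (cof D (A t)) μ (i t) (S t) (h t) (φ t) (e t j) (E t j) =
      E t j * kap μ (i t) (h t) (φ t) (e t j) +
        ∫ x, ten (cof D (A t)) (S t) x ((e t j).1.snd x) ∂μ := fun t j =>
    (ka_facts (F.surf t) (hp t) (φ t) (h t) (S t) (F.sym t) (F.cont t) (by linarith)
      (F.S_le t) (e t) (E t) (hE t) j).1
  obtain ⟨η, hη, δ, hδ, H⟩ := up (F.surf t) (hp t) (φ t) (h t) (S t) (F.sym t) (F.cont t)
    (by linarith) (F.S_le t) (e t) (E t) (hE t) m j hmj hl ε hε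
  obtain ⟨δ1, hδ1, H1⟩ := F.derA t η hη
  have hφ := hasDerivAt_iff_isLittleO_nhds_zero.1 (F.derφ t)
  have hφ' := hφ.def hη
  obtain ⟨δ2, hδ2, H2⟩ := Metric.eventually_nhds_iff_ball.1 hφ'
  refine ⟨min δ (min δ1 δ2), lt_min hδ (lt_min hδ1 hδ2), fun τ hτ => ?_⟩
  have t1 : |τ| < δ := lt_of_lt_of_le hτ (min_le_left _ _)
  have t2 : |τ| < δ1 := lt_of_lt_of_le hτ ((min_le_right _ _).trans (min_le_left _ _))
  have t3 : |τ| < δ2 := lt_of_lt_of_le hτ ((min_le_right _ _).trans (min_le_right _ _))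
  have h1 : Ev (a (t + τ)) (b (t + τ) (φ (t + τ))) m ≤ E t m - τ * (E t m *
      kap μ (i t) (h t) (φ t) (e t j) +
      ∫ x, ten (cof D (A t)) (S t) x ((e t j).1.snd x) ∂μ) + ε * |τ| := by
    refine H τ t1 (A (t + τ)) (F.surf (t + τ)) (hp (t + τ)) (φ (t + τ)) ?_ ?_
    · intro l z hz v
      have h2 := (abs_le.1 (H1 τ t2 l z hz v)).1
      show ‖A t l z v‖ ^ 2 + τ * S t l z v v - η * |τ| * ‖A t l z v‖ ^ 2 ≤
        ‖A (t + τ) l z v‖ ^ 2
      linarith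
    · have h2 := H2 τ (by rw [Metric.mem_ball, dist_zero_right, Real.norm_eq_abs]; exact t3)
      rw [Real.norm_eq_abs] at h2
      have h3 : φ (t + τ) - φ t - τ • h t = -(φ t + τ • h t - φ (t + τ)) := by
        rw [neg_sub, sub_sub]
      rw [h3, norm_neg] at h2
      exact h2
  rw [hev] at h1
  have h2 := hκ t j
  rw [← hmj] at h2
  show E (t + τ) m ≤ _
  refine h1.trans (le_of_eq ?_)
  have h3 : E t m * (1 - ka (cof D (A t)) μ (i t) (S t) (h t) (φ t) (e t j) (E t j) * τ) =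
      E t m - τ * (E t m * ka (cof D (A t)) μ (i t) (S t) (h t) (φ t) (e t j) (E t j)) := by
    ring
  rw [h3, ← hmj, h2]

/-- **One parameter families.** -/
theorem line {A φ S h K} (F : Fam D μ A φ S h K)
    (i : ∀ t, HF (cof D (A t)) μ →L[ℝ] Lp ℝ 2 μ)
    (a : ∀ t, HF (cof D (A t)) μ →L[ℝ] HF (cof D (A t)) μ →L[ℝ] ℝ)
    (b : ∀ t, C(M, ℝ) → HF (cof D (A t)) μ →L[ℝ] HF (cof D (A t)) μ →L[ℝ] ℝ)
    (hp : ∀ t, Pk (cof D (A t)) μ (i t) (a t) (b t))
    (e : ∀ t, ℕ → HF (cof D (A t)) μ) (E : ℝ → ℕ → ℝ)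
    (hE : ∀ t, Eg (a t) (b t (φ t)) (e t) (E t)) :
    (∀ j s t, E s j ≤ Real.exp ((2 * K + 2) * |s - t|) * E t j) ∧
    (∀ᵐ t : ℝ, ∀ j, HasDerivAt (fun s => E s j)
      (-(ka (cof D (A t)) μ (i t) (S t) (h t) (φ t) (e t j) (E t j) * E t j)) t) ∧
    ∀ χ : ℝ → ℝ, Integrable χ volume →
      Tendsto (fun j => ∫ t, χ t * ka (cof D (A t)) μ (i t) (S t) (h t) (φ t) (e t j) (E t j))
        atTop (𝓝 (∫ t, χ t * avg μ (h t) (φ t))) := by
  obtain ⟨hf, -⟩ := tFin M μ (cof D (A 0)) (F.surf 0)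
  have hK := F.K0
  have hev : ∀ t j, Ev (a t) (b t (φ t)) j = E t j := fun t j =>
    Pool.Agent.Y592.QE.mm _ (a t) (b t (φ t)) ((hp t).fm _) (e t) (E t) (hE t) j
  have hE0 : ∀ t j, 0 ≤ E t j := by
    intro t j
    have h1 := ((hp t).fm (φ t)).na (e t j)
    rw [(hE t).eig, (hE t).orth, if_pos rfl, mul_one] at h1
    exact h1
  have hLp : ∀ (j : ℕ) (s t : ℝ), E s j ≤ Real.exp ((2 * K + 2) * |s - t|) * E t j := by
    intro j s t
    have h1 : Ev (a s) (b s (φ s)) j ≤ Real.exp (K * |t - s|) * Real.exp ‖φ t - φ s‖ *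
        Ev (a t) (b t (φ t)) j :=
      lam_le (F.surf t) (A s) (F.surf s) (Real.exp_pos (K * |t - s|))
        (fun i z hz v => F.lipA t s i z hz v) (hp t) (hp s) (φ t) (φ s) j
    rw [hev, hev] at h1
    refine h1.trans (mul_le_mul_of_nonneg_right ?_ (hE0 t j))
    rw [← Real.exp_add]
    refine Real.exp_le_exp.2 ?_
    have h2 := F.lipφ t s
    rw [abs_sub_comm t s] at h2 ⊢
    nlinarith [abs_nonneg (s - t)]
  have hA : ∀ ψ : C(M, ℝ), 0 < ∫ x, Real.exp (ψ x) ∂μ := (hp 0).pos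
  have c1 : ∀ᵐ t : ℝ, ∀ j, HasDerivAt (fun s => E s j)
      (-(ka (cof D (A t)) μ (i t) (S t) (h t) (φ t) (e t j) (E t j) * E t j)) t := by
    refine Pool.Agent.Y147.QR.stAE (fun j t => E t j)
      (fun j t => ka (cof D (A t)) μ (i t) (S t) (h t) (φ t) (e t j) (E t j)) (2 * K + 2)
      (fun j t => hE0 t j) (fun i' j t hij => (hE t).mono hij) hLp ?_
    intro m j t hmj hl ε hε
    exact F.upper i a b hp e E hE m j t hmj hl ε hε
  refine ⟨hLp, c1, fun χ hχ => ?_⟩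
  -- positivity
  obtain ⟨J, hJ⟩ : ∃ J : ℕ, ∀ j, J ≤ j → ∀ t, 0 < E t j := by
    obtain ⟨J, hJ⟩ := eventually_atTop.1 ((hE 0).tt.eventually_gt_atTop 0)
    refine ⟨J, fun j hj t => ?_⟩
    have h1 := hJ j hj
    have h2 := hLp j 0 t
    by_contra hn
    have h3 : E t j = 0 := le_antisymm (not_lt.1 hn) (hE0 t j)
    rw [h3, mul_zero] at h2
    linarith
  have hftc : ∀ j, J ≤ j →
      (∀ᵐ t : ℝ, |ka (cof D (A t)) μ (i t) (S t) (h t) (φ t) (e t j) (E t j)| ≤ 2 * K + 2) ∧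
      AEMeasurable (fun t : ℝ => ka (cof D (A t)) μ (i t) (S t) (h t) (φ t) (e t j) (E t j))
        volume ∧
      ∀ α β : ℝ, α ≤ β →
        ∫ t in α..β, ka (cof D (A t)) μ (i t) (S t) (h t) (φ t) (e t j) (E t j) =
        Real.log (E α j) - Real.log (E β j) := by
    intro j hj
    exact Pool.Agent.Y147.QR.stFTC (fun t => E t j)
      (fun t => ka (cof D (A t)) μ (i t) (S t) (h t) (φ t) (e t j) (E t j)) (2 * K + 2)
      (fun t => hJ j hj _) (hLp j) (c1.mono fun t ht => ht j)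
  have hY : (∀ᵐ t : ℝ, |avg μ (h t) (φ t)| ≤ K) ∧
      AEMeasurable (fun t : ℝ => avg μ (h t) (φ t)) volume ∧
      ∀ α β : ℝ, α ≤ β → ∫ t in α..β, avg μ (h t) (φ t) =
        Real.log (∫ x, Real.exp (φ α x) ∂μ)⁻¹ - Real.log (∫ x, Real.exp (φ β x) ∂μ)⁻¹ := by
    refine Pool.Agent.Y147.QR.stFTC (fun t => (∫ x, Real.exp (φ t x) ∂μ)⁻¹)
      (fun t => avg μ (h t) (φ t)) K (fun t => inv_pos.2 (hA _)) ?_ ?_
    · intro s t
      show (∫ x, Real.exp (φ s x) ∂μ)⁻¹ ≤ Real.exp (K * |s - t|) * (∫ x, Real.exp (φ t x) ∂μ)⁻¹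
      rw [inv_le_iff_one_le_mul₀ (hA _), mul_assoc, mul_comm (Real.exp (K * |s - t|)), mul_assoc,
        inv_mul_eq_div, one_le_div (hA _), mul_comm, ← integral_const_mul]
      refine integral_mono (Pool.Agent.Y155.QR.int_cont μ (by fun_prop))
        (Pool.Agent.Y155.QR.int_cont μ (by fun_prop)) fun x => ?_
      show Real.exp (φ t x) ≤ Real.exp (K * |s - t|) * Real.exp (φ s x)
      rw [← Real.exp_add]
      refine Real.exp_le_exp.2 ?_
      have h4 : (φ t - φ s) x ≤ ‖φ t - φ s‖ :=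
        (le_abs_self _).trans ((φ t - φ s).norm_coe_le_norm x)
      have h5 := F.lipφ t s
      rw [ContinuousMap.sub_apply] at h4
      rw [abs_sub_comm t s] at h5
      linarith
    · refine Eventually.of_forall fun t => ?_
      have h1 := (area_der hK F.derφ F.lipφ F.h_le t).inv (hA (φ t)).ne'
      have h2 : -(avg μ (h t) (φ t) * (∫ x, Real.exp (φ t x) ∂μ)⁻¹) =
          -(∫ x, h t x * Real.exp (φ t x) ∂μ) / (∫ x, Real.exp (φ t x) ∂μ) ^ 2 := by
        have := (hA (φ t)).ne'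
        unfold avg
        field_simp
      rw [h2]
      exact h1
  have h1 := Pool.Agent.Y401.QR.t_Dens
    (fun j t => ka (cof D (A t)) μ (i t) (S t) (h t) (φ t) (e t (j + J)) (E t (j + J)))
    (fun t => avg μ (h t) (φ t)) (2 * K + 2) (fun j => (hftc (j + J) (by omega)).2.1)
    hY.2.1 (fun j => (hftc (j + J) (by omega)).1)
    (hY.1.mono fun t ht => ht.trans (by linarith)) (by
      intro α β hαβ
      have hlog : ∀ t : ℝ, Tendsto
          (fun j : ℕ => Real.log (E t (j + J) / (((j + J : ℕ) : ℝ) + 1))) atTop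
          (𝓝 (Real.log (4 * π / ∫ x, Real.exp (φ t x) ∂μ))) := by
        intro t
        have h2 := (tendsto_add_atTop_iff_nat J).2 ((hp t).wl (φ t))
        have h3 : (fun j : ℕ => Ev (a t) (b t (φ t)) (j + J) / (((j + J : ℕ) : ℝ) + 1)) =
            fun j : ℕ => E t (j + J) / (((j + J : ℕ) : ℝ) + 1) := by
          funext j
          rw [hev]
        rw [h3] at h2
        exact h2.log (div_pos (by positivity) (hA _)).ne'
      have h3 := (hlog α).sub (hlog β)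
      have e1 : Real.log (4 * π / ∫ x, Real.exp (φ α x) ∂μ) -
          Real.log (4 * π / ∫ x, Real.exp (φ β x) ∂μ) =
          ∫ t in α..β, avg μ (h t) (φ t) := by
        rw [hY.2.2 α β hαβ, Real.log_div (by positivity) (hA _).ne',
          Real.log_div (by positivity) (hA _).ne', Real.log_inv, Real.log_inv]
        ring
      rw [e1] at h3
      refine h3.congr fun j => ?_
      rw [(hftc (j + J) (by omega)).2.2 α β hαβ]
      have hj : ((j + J : ℕ) : ℝ) + 1 ≠ 0 := by positivity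
      rw [Real.log_div (hJ (j + J) (by omega) _).ne' hj,
        Real.log_div (hJ (j + J) (by omega) _).ne' hj]
      ring) χ hχ
  exact (tendsto_add_atTop_iff_nat
    (f := fun j => ∫ t, χ t * ka (cof D (A t)) μ (i t) (S t) (h t) (φ t) (e t j) (E t j)) J).1 h1

end

end Pool.Agent.K4H46.QS
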