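import Pool.Agent.K4H46.QS.Fld
import Pool.Agent.K4H46.QS.Der
import Pool.Agent.Y264.QR.All

/-!
# The form domains of two metrics, comparison of the eigenvalues
-/

set_option autoImplicit false

open Set Filter Topology MeasureTheory
open scoped Real ContDiff

noncomputable section

namespace Pool.Agent.K4H46.QS

open Pool.Agent.Y262.QE Pool.Agent.Y264.QR Pool.Agent.Y708.QE

section lin

variable {H H' : Type} [NormedAddCommGroup H] [InnerProductSpace ℝ H] [NormedAddCommGroup H']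
  [InnerProductSpace ℝ H']

lemma HD_map (J : H →L[ℝ] H') (hJ : Function.Injective J) {a' b' : H' →L[ℝ] H' →L[ℝ] ℝ}
    {lam : ℝ} {j : ℕ} (h : HD (a'.bilinearComp J J) (b'.bilinearComp J J) lam j) :
    HD a' b' lam j := by
  obtain ⟨V, hV, h⟩ := h
  refine ⟨V.map (J : H →ₗ[ℝ] H'), ?_, ?_⟩
  · rw [← hV]
    exact (LinearEquiv.finrank_eq (Submodule.equivMapOfInjective (J : H →ₗ[ℝ] H') hJ V)).symm
  · rintro _ ⟨v, hv, rfl⟩
    exact h v hv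

lemma HD_scale {a b a' b' : H →L[ℝ] H →L[ℝ] ℝ} {c lam : ℝ} {j : ℕ} (hlam : 0 ≤ lam)
    {c1 c2 : ℝ} (hc1 : 0 ≤ c1) (hc : c = c1 * c2) (h1 : ∀ v, a' v v ≤ c1 * a v v)
    (h2 : ∀ v, b v v ≤ c2 * b' v v) (h : HD a b lam j) : HD a' b' (c * lam) j := by
  obtain ⟨V, hV, h⟩ := h
  refine ⟨V, hV, fun v hv => ?_⟩
  have h3 := h v hv
  have h4 := mul_le_mul_of_nonneg_left (h2 v) hlam
  calc a' v v ≤ c1 * a v v := h1 v
    _ ≤ c1 * (lam * b v v) := mul_le_mul_of_nonneg_left h3 hc1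
    _ ≤ c1 * (lam * (c2 * b' v v)) := mul_le_mul_of_nonneg_left h4 hc1
    _ = c * lam * b' v v := by rw [hc]; ring

lemma Ev_le_of {a b : H →L[ℝ] H →L[ℝ] ℝ} {a' b' : H' →L[ℝ] H' →L[ℝ] ℝ} (hF : Fm a b) {c : ℝ}
    (hc : 0 < c) {j : ℕ} (h : ∀ lam, 0 ≤ lam → HD a b lam j → HD a' b' (c * lam) j) :
    Ev a' b' j ≤ c * Ev a b j := by
  have h1 : ∀ lam ∈ {lam | 0 ≤ lam ∧ HD a b lam j}, c⁻¹ * Ev a' b' j ≤ lam := by
    intro lam hl
    have h2 : Ev a' b' j ≤ c * lam :=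
      csInf_le ⟨0, fun x hx => hx.1⟩ ⟨mul_nonneg hc.le hl.1, h lam hl.1 hl.2⟩
    rw [inv_mul_le_iff₀ hc]
    exact h2
  have h3 : c⁻¹ * Ev a' b' j ≤ Ev a b j :=
    le_csInf (Pool.Agent.Y592.QE.nonempty_set hF j) h1
  rwa [inv_mul_le_iff₀ hc] at h3

end lin

section

variable {M : Type} [MetricSpace M] [CompactSpace M] [MeasurableSpace M] [BorelSpace M]
  {μ : Measure M} {D : Data M}

/-- the forms of a surface -/
structure Pk (D : Data M) (μ : Measure M) (i : HF D μ →L[ℝ] Lp ℝ 2 μ)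
    (a : HF D μ →L[ℝ] HF D μ →L[ℝ] ℝ) (b : C(M, ℝ) → HF D μ →L[ℝ] HF D μ →L[ℝ] ℝ) : Prop where
  sf : Sf μ i a
  fst : ∀ v, i v = v.1.fst
  snd : ∀ u v, a u v = inner ℝ u.1.snd v.1.snd
  isB : IsB μ i b
  fm : ∀ φ, Fm a (b φ)
  pos : ∀ φ : C(M, ℝ), 0 < ∫ x, Real.exp (φ x) ∂μ
  cmp : ∀ (φ ψ : C(M, ℝ)) (v), b φ v v ≤ Real.exp ‖φ - ψ‖ * b ψ v v
  wl : Wl μ a b
  k : ∀ h : C(M, ℝ), ∃ k : C(M, ℝ) → HF D μ →L[ℝ] HF D μ →L[ℝ] ℝ,
    (∀ φ u v, k φ u v = k φ v u) ∧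
    (∀ φ v, k φ v v = kap μ i h φ v ∧ |k φ v v| ≤ ‖h‖ * b φ v v) ∧
    ∀ φ v (τ : ℝ), b φ v v + τ * k φ v v ≤ b (φ + τ • h) v v

theorem exists_pk [Nonempty M] (hD : D.IsSurf μ) : ∃ i a b, Pk D μ i a b := by
  obtain ⟨hf, -⟩ := tFin M μ D hD
  haveI := hf
  obtain ⟨i, a, hSf, hi, ha⟩ := tPackF M μ D hD inferInstance
  obtain ⟨b, hB, hF, h1, h2, h3⟩ := tFm M μ (HF D μ) i a hSf
  exact ⟨i, a, b, hSf, hi, ha, hB, hF, h1, h2, tWl M μ D hD inferInstance i a b hSf hi ha hB, h3⟩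

lemma exists_J0 {E F F' : Type} [NormedAddCommGroup E] [InnerProductSpace ℝ E]
    [NormedAddCommGroup F] [InnerProductSpace ℝ F] [NormedAddCommGroup F']
    [InnerProductSpace ℝ F'] (T : F →L[ℝ] F') :
    ∃ J0 : WithLp 2 (E × F) →L[ℝ] WithLp 2 (E × F'),
      ∀ v, (J0 v).fst = v.fst ∧ (J0 v).snd = T v.snd := by
  refine ⟨(WithLp.prodContinuousLinearEquiv 2 ℝ E F').symm.toContinuousLinearMap.comp
    (((ContinuousLinearMap.fst ℝ E F).prod (T.comp (ContinuousLinearMap.snd ℝ E F))).comp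
      (WithLp.prodContinuousLinearEquiv 2 ℝ E F).toContinuousLinearMap), fun v => ⟨rfl, rfl⟩⟩

/-- the identity as a map between the form domains of two metrics -/
theorem exists_J (hD : D.IsSurf μ) (A' : Fin D.N → ℂ → ℂ →L[ℝ] ℂ) (hD' : (cof D A').IsSurf μ)
    {c : ℝ} (hc : 0 ≤ c) (h : ∀ i, ∀ z ∈ D.T i, ∀ v, ‖D.A i z v‖ ^ 2 ≤ c * ‖A' i z v‖ ^ 2) :
    ∃ J : HF D μ →L[ℝ] HF (cof D A') μ, Function.Injective J ∧
      ∀ v, (J v).1.fst = v.1.fst ∧ ((J v).1.snd : M → ℂ) =ᵐ[μ] fun x => chg D A' x (v.1.snd x) := by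
  obtain ⟨T, hT⟩ := chg_op hD A' hD' hc h
  obtain ⟨J0, hJ0⟩ := exists_J0 (E := Lp ℝ 2 μ) T
  obtain ⟨hD1, hD2⟩ := tDenF M μ D hD
  obtain ⟨hD1', -⟩ := tDenF M μ (cof D A') hD'
  have hmem : ∀ v ∈ HF D μ, J0 v ∈ HF (cof D A') μ := by
    intro v hv
    obtain ⟨F, f, hf, hft⟩ := hD2 v hv
    have h1 : ∀ k, J0 (f k) ∈ HF (cof D A') μ := by
      intro k
      obtain ⟨w, hw, hw1, hw2⟩ := hD1' (F k) (hf k).1
      have e : J0 (f k) = w := by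
        have e1 : (J0 (f k)).fst = w.fst := by
          apply Lp.ext
          rw [(hJ0 _).1]
          filter_upwards [(hf k).2.2.1, hw1] with x h2 h3
          rw [h2, h3]
        have e2 : (J0 (f k)).snd = w.snd := by
          apply Lp.ext
          rw [(hJ0 _).2]
          filter_upwards [hT (f k).snd, (hf k).2.2.2, hw2] with x h2 h3 h4
          rw [h2, h3, h4, chg_gr hD]
        exact (WithLp.equiv 2 _).injective (Prod.ext e1 e2)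
      rw [e]
      exact hw
    exact (Submodule.isClosed_topologicalClosure _).mem_of_tendsto
      ((J0.continuous.tendsto v).comp hft) (Eventually.of_forall h1)
  obtain ⟨J, hJ⟩ : ∃ J : HF D μ →L[ℝ] HF (cof D A') μ, ∀ v, (J v).1 = J0 v.1 :=
    ⟨(J0.comp (HF D μ).subtypeL).codRestrict (HF (cof D A') μ) (fun v => hmem v.1 v.2),
      fun v => rfl⟩
  refine ⟨J, ?_, fun v => ?_⟩
  swap
  · rw [hJ v, (hJ0 v.1).1, (hJ0 v.1).2]
    exact ⟨rfl, hT v.1.snd⟩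
  intro v w hvw
  have h1 : J0 v.1 = J0 w.1 := by rw [← hJ v, ← hJ w, hvw]
  have h2 : v.1.fst = w.1.fst := by rw [← (hJ0 v.1).1, ← (hJ0 w.1).1, h1]
  have h3 : T v.1.snd = T w.1.snd := by rw [← (hJ0 v.1).2, ← (hJ0 w.1).2, h1]
  have h4 : v.1.snd = w.1.snd := by
    apply Lp.ext
    filter_upwards [hT v.1.snd, hT w.1.snd] with x h5 h6
    have h7 : chg D A' x (v.1.snd x) = chg D A' x (w.1.snd x) := by rw [← h5, ← h6, h3]
    obtain ⟨i, hi⟩ := pc_ex hD x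
    rw [chg_eq A' hi, chg_eq A' hi] at h7
    apply ext_inner_right ℝ
    intro y
    have e : ∀ G, inner ℝ (cg (D.A i (D.φ i x)) (A' i (D.φ i x)) G)
        (A' i (D.φ i x) ((D.A i (D.φ i x)).inverse y)) = inner ℝ G y := by
      intro G
      have hdet : (A' i (D.φ i x)).det ≠ 0 := hD'.det i _ (mem_T hi.1)
      rw [inner_cg, inv_apply' hdet, inv_apply (hD.det i _ (mem_T hi.1))]
    rw [← e, ← e, h7]
  exact Subtype.ext ((WithLp.equiv 2 _).injective (Prod.ext h2 h4))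

/-- square of the norm in `L²` -/
theorem nsq (g : Lp ℂ 2 μ) : inner ℝ g g = ∫ x, ‖g x‖ ^ 2 ∂μ := by
  rw [L2.inner_def]
  exact integral_congr_ae (Eventually.of_forall fun x => real_inner_self_eq_norm_sq _)

theorem nsq_int (g : Lp ℂ 2 μ) : Integrable (fun x => ‖g x‖ ^ 2) μ := by
  have := (Lp.memLp g).integrable_norm_pow (by norm_num)
  exact this

/-- comparison of the eigenvalues of two metrics -/
theorem lam_le (hD : D.IsSurf μ) (A' : Fin D.N → ℂ → ℂ →L[ℝ] ℂ)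
    (hD' : (cof D A').IsSurf μ) {c : ℝ} (hc : 0 < c)
    (h : ∀ i, ∀ z ∈ D.T i, ∀ v, ‖D.A i z v‖ ^ 2 ≤ c * ‖A' i z v‖ ^ 2) {i a b i' a' b'}
    (hp : Pk D μ i a b) (hp' : Pk (cof D A') μ i' a' b') (φ φ' : C(M, ℝ)) (j : ℕ) :
    Ev a' (b' φ') j ≤ c * Real.exp ‖φ - φ'‖ * Ev a (b φ) j := by
  obtain ⟨J, hJi, hJ⟩ := exists_J hD A' hD' hc.le h
  refine Ev_le_of (hp.fm φ) (by positivity) fun lam hlam hHD => ?_
  refine HD_map J hJi (HD_scale hlam hc.le rfl ?_ ?_ hHD)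
  · intro v
    show a' (J v) (J v) ≤ c * a v v
    rw [hp'.snd, hp.snd, nsq, nsq, ← integral_const_mul]
    have h1 : (fun x => ‖(J v).1.snd x‖ ^ 2) =ᵐ[μ] fun x => ‖chg D A' x (v.1.snd x)‖ ^ 2 := by
      filter_upwards [(hJ v).2] with x hx
      rw [hx]
    rw [integral_congr_ae h1]
    refine integral_mono_ae ((nsq_int _).congr h1) ((nsq_int _).const_mul c)
      (Eventually.of_forall fun x => ?_)
    show ‖chg D A' x (v.1.snd x)‖ ^ 2 ≤ c * ‖v.1.snd x‖ ^ 2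
    obtain ⟨k, hk⟩ := pc_ex hD x
    rw [chg_eq A' hk]
    exact norm_cg (hD'.det k _ (mem_T hk.1)) hc.le (h k _ (mem_T hk.1)) _
  · intro v
    show b φ v v ≤ Real.exp ‖φ - φ'‖ * b' φ' (J v) (J v)
    have e1 : b' φ' (J v) (J v) = b φ' v v := by
      rw [hp'.isB, hp.isB, hp'.fst, hp.fst, (hJ v).1]
    rw [e1]
    exact hp.cmp φ φ' v

end

end Pool.Agent.K4H46.QS
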