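import Pool.Agent.K4H46.QS.Tr

/-!
# The one-sided derivative of an eigenvalue for a deformation of the metric
-/

set_option autoImplicit false

open Set Filter Topology MeasureTheory
open scoped Real ContDiff

noncomputable section

namespace Pool.Agent.K4H46.QS

open Pool.Agent.Y262.QE Pool.Agent.Y264.QR Pool.Agent.Y708.QE

section

variable {M : Type} [MetricSpace M] [CompactSpace M] [MeasurableSpace M] [BorelSpace M]
  {μ : Measure M} {D : Data M}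

/-- the form of a tensor on the form domain -/
theorem sig (hD : D.IsSurf μ) {i a b} (hp : Pk D μ i a b)
    (S : Fin D.N → ℂ → ℂ →L[ℝ] ℂ →L[ℝ] ℝ)
    (hS : ∀ i z v w, S i z v w = S i z w v) (hcont : ∀ i, ContinuousOn (S i) (D.T i)) {K : ℝ}
    (hK : 0 ≤ K) (hSb : ∀ i, ∀ z ∈ D.T i, ∀ v, |S i z v v| ≤ K * ‖D.A i z v‖ ^ 2) :
    ∃ σ : HF D μ →L[ℝ] HF D μ →L[ℝ] ℝ, (∀ f g, σ f g = σ g f) ∧
      (∀ v : HF D μ, σ v v = ∫ x, ten D S x (v.1.snd x) ∂μ) ∧ (∀ v, |σ v v| ≤ K * a v v) ∧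
      ∀ v : HF D μ, Integrable (fun x => ten D S x (v.1.snd x)) μ := by
  obtain ⟨σ, h1, h2⟩ := ten_op hD S hS hcont hK hSb
  obtain ⟨Q, hQ⟩ : ∃ Q : HF D μ →L[ℝ] Lp ℂ 2 μ, ∀ v : HF D μ, Q v = v.1.snd :=
    ⟨(WithLp.sndL 2 ℝ (Lp ℝ 2 μ) (Lp ℂ 2 μ)).comp (HF D μ).subtypeL, fun v => rfl⟩
  have hle : ∀ x (G : ℂ), |ten D S x G| ≤ K * ‖G‖ ^ 2 := by
    intro x G
    obtain ⟨k, hk⟩ := pc_ex hD x
    rw [ten_eq D S hk]
    have h3 := hSb k _ (mem_T hk.1) ((D.A k (D.φ k x)).inverse G)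
    rwa [inv_apply (hD.det k _ (mem_T hk.1))] at h3
  have hint : ∀ g : Lp ℂ 2 μ, Integrable (fun x => ten D S x (g x)) μ := fun g => (h2 g).2
  refine ⟨σ.bilinearComp Q Q, fun f g => h1 _ _, fun v => ?_, fun v => ?_, fun v => hint _⟩
  · show σ (Q v) (Q v) = _
    rw [(h2 _).1, hQ]
  · show |σ (Q v) (Q v)| ≤ _
    rw [(h2 _).1, hQ, hp.snd, nsq, ← integral_const_mul]
    refine (abs_integral_le_integral_abs).trans (integral_mono (hint _).abs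
      ((nsq_int _).const_mul K) fun x => hle x _)

lemma int3 {X : Type} [MeasurableSpace X] {ν : Measure X} {f g : X → ℝ} (I1 : Integrable f ν)
    (I2 : Integrable g ν) (c d : ℝ) :
    Integrable (fun x => f x - c * g x + d * f x) ν ∧
      ∫ x, (f x - c * g x + d * f x) ∂ν = ∫ x, f x ∂ν - c * ∫ x, g x ∂ν + d * ∫ x, f x ∂ν := by
  have I3 : Integrable (fun x => c * g x) ν := I2.const_mul c
  have I4 : Integrable (fun x => f x - c * g x) ν := I1.sub I3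
  have I5 : Integrable (fun x => d * f x) ν := I1.const_mul d
  exact ⟨I4.add I5, by rw [integral_add I4 I5, integral_sub I1 I3, integral_const_mul,
    integral_const_mul]⟩

/-- comparison of the forms -/
lemma bcomp {B B1 B2 kv η η0 τ h : ℝ} (hB : 0 ≤ B) (hη : 0 ≤ η) (h3 : 2 * η ≤ η0)
    (hk : |kv| ≤ h * B) (hτ : h * |τ| ≤ 1) (hη1 : η * |τ| ≤ 1) (hB1 : 0 ≤ B1)
    (h1 : B + τ * kv ≤ B1) (h2 : B1 ≤ Real.exp (η * |τ|) * B2) :
    B + τ * kv - η0 * |τ| * B ≤ B2 := by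
  have ht := abs_nonneg τ
  have e1 : (1 - η * |τ|) * Real.exp (η * |τ|) ≤ 1 := by
    have h4 := Real.add_one_le_exp (-(η * |τ|))
    have h5 : Real.exp (-(η * |τ|)) * Real.exp (η * |τ|) = 1 := by
      rw [← Real.exp_add]; simp
    have h6 := mul_le_mul_of_nonneg_right h4 (Real.exp_pos (η * |τ|)).le
    rw [h5] at h6
    have h7 : -(η * |τ|) + 1 = 1 - η * |τ| := by ring
    rwa [h7] at h6
  have hB2 : 0 ≤ B2 := by
    by_contra hn
    push Not at hn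
    have := mul_neg_of_pos_of_neg (Real.exp_pos (η * |τ|)) hn
    linarith
  have h8 : (1 - η * |τ|) * B1 ≤ B2 := by
    calc (1 - η * |τ|) * B1 ≤ (1 - η * |τ|) * (Real.exp (η * |τ|) * B2) :=
          mul_le_mul_of_nonneg_left h2 (by linarith)
      _ = ((1 - η * |τ|) * Real.exp (η * |τ|)) * B2 := by ring
      _ ≤ 1 * B2 := mul_le_mul_of_nonneg_right e1 hB2
      _ = B2 := one_mul _
  have h9 : (1 - η * |τ|) * (B + τ * kv) ≤ (1 - η * |τ|) * B1 :=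
    mul_le_mul_of_nonneg_left h1 (by linarith)
  have h10 : τ * kv ≤ B := by
    refine (le_abs_self _).trans ?_
    rw [abs_mul]
    have h11 := mul_le_mul_of_nonneg_left hk ht
    have h12 := mul_le_mul_of_nonneg_right hτ hB
    nlinarith
  have h11 : η * |τ| * (B + τ * kv) ≤ η * |τ| * (2 * B) :=
    mul_le_mul_of_nonneg_left (by linarith) (by positivity)
  have h12 : 2 * η * (|τ| * B) ≤ η0 * (|τ| * B) := mul_le_mul_of_nonneg_right h3 (by positivity)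
  nlinarith

/-- **The one-sided derivative.** -/
theorem up (hD : D.IsSurf μ) {i a b} (hp : Pk D μ i a b) (φ h : C(M, ℝ))
    (S : Fin D.N → ℂ → ℂ →L[ℝ] ℂ →L[ℝ] ℝ)
    (hS : ∀ i z v w, S i z v w = S i z w v) (hcont : ∀ i, ContinuousOn (S i) (D.T i)) {K : ℝ}
    (hK : 0 ≤ K) (hSb : ∀ i, ∀ z ∈ D.T i, ∀ v, |S i z v v| ≤ K * ‖D.A i z v‖ ^ 2)
    (e : ℕ → HF D μ) (E : ℕ → ℝ) (hE : Eg a (b φ) e E) (m j : ℕ) (hij : E m = E j)
    (hlt : ∀ l, l < m → E l < E m) (ε : ℝ) (hε : 0 < ε) :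
    ∃ η : ℝ, 0 < η ∧ ∃ δ : ℝ, 0 < δ ∧ ∀ τ : ℝ, |τ| < δ → ∀ (A' : Fin D.N → ℂ → ℂ →L[ℝ] ℂ),
      (cof D A').IsSurf μ → ∀ {i' a' b'}, Pk (cof D A') μ i' a' b' → ∀ φ' : C(M, ℝ),
      (∀ i, ∀ z ∈ D.T i, ∀ v,
        ‖D.A i z v‖ ^ 2 + τ * S i z v v - η * |τ| * ‖D.A i z v‖ ^ 2 ≤ ‖A' i z v‖ ^ 2) →
      ‖φ + τ • h - φ'‖ ≤ η * |τ| →
      Ev a' (b' φ') m ≤ E m - τ * (E m * kap μ i h φ (e j) +
        ∫ x, ten D S x ((e j).1.snd x) ∂μ) + ε * |τ| := by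
  obtain ⟨k, ksym, k1, k2⟩ := hp.k h
  obtain ⟨σ, σsym, σ1, σ2, σ3⟩ := sig hD hp S hS hcont hK hSb
  have hb0 : ∀ v, 0 ≤ b φ v v := (hp.fm φ).nb
  have ha0 : ∀ v, 0 ≤ a v v := (hp.fm φ).na
  have hh := norm_nonneg h
  obtain ⟨η0, hη0, δ0, hδ0, H⟩ := der1 a (b φ) (hp.fm φ) e E hE (k φ) σ (K + ‖h‖) (ksym φ) σsym
    (fun v => (k1 φ v).2.trans (mul_le_mul_of_nonneg_right (by linarith) (hb0 v)))
    (fun v => (σ2 v).trans (mul_le_mul_of_nonneg_right (by linarith) (ha0 v))) m j hij hlt ε hε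
  refine ⟨η0 / 3, by positivity, min (min δ0 ((1 / 4) / (K + 1)))
    (min (min (1 / (8 * (η0 / 3) + 1)) ((η0 / 3) / (4 * K ^ 2 + 1))) (1 / (‖h‖ + 1))), ?_, ?_⟩
  · refine lt_min (lt_min hδ0 ?_) (lt_min (lt_min ?_ ?_) ?_) <;> positivity
  intro τ hτ A' hD' i' a' b' hp' φ' hA' hφ'
  set η := η0 / 3 with hη
  have hη' : 0 < η := by positivity
  have t0 : |τ| < δ0 := lt_of_lt_of_le hτ ((min_le_left _ _).trans (min_le_left _ _))
  have t1 : K * |τ| ≤ 1 / 4 :=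
    small hK (lt_of_lt_of_le hτ ((min_le_left _ _).trans (min_le_right _ _)))
  have t2 : 8 * η * |τ| ≤ 1 := small (by positivity) (lt_of_lt_of_le hτ
    ((min_le_right _ _).trans ((min_le_left _ _).trans (min_le_left _ _))))
  have t3 : 4 * K ^ 2 * |τ| ≤ η := small (by positivity) (lt_of_lt_of_le hτ
    ((min_le_right _ _).trans ((min_le_left _ _).trans (min_le_right _ _))))
  have t4 : ‖h‖ * |τ| ≤ 1 :=
    small hh (lt_of_lt_of_le hτ ((min_le_right _ _).trans (min_le_right _ _)))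
  have ht := abs_nonneg τ
  have hcmp : ∀ i, ∀ z ∈ D.T i, ∀ v, ‖D.A i z v‖ ^ 2 ≤ 2 * ‖A' i z v‖ ^ 2 := by
    intro i z hz v
    have h1 := hA' i z hz v
    have h2 := hSb i z hz v
    have h3 := sq_nonneg ‖D.A i z v‖
    set X := ‖D.A i z v‖ ^ 2
    have h4 : |τ * S i z v v| ≤ X / 4 := by
      rw [abs_mul]
      have := mul_le_mul_of_nonneg_left h2 ht
      have h5 := mul_le_mul_of_nonneg_right t1 h3
      nlinarith
    have h5 := (abs_le.1 h4).1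
    have h6 := mul_le_mul_of_nonneg_right t2 h3
    nlinarith
  obtain ⟨J, hJi, hJ⟩ := exists_J hD A' hD' (by norm_num) hcmp
  have hbJ : ∀ v, b' φ' (J v) (J v) = b φ' v v := by
    intro v
    rw [hp'.isB, hp.isB, hp'.fst, hp.fst, (hJ v).1]
  have haJ : ∀ v, a' (J v) (J v) ≤ a v v - τ * σ v v + η0 * |τ| * a v v := by
    intro v
    obtain ⟨I1, e1⟩ := int3 (nsq_int v.1.snd) (σ3 v) τ (η0 * |τ|)
    rw [hp'.snd, hp.snd, nsq, nsq, σ1, ← e1]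
    have h1 : (fun x => ‖(J v).1.snd x‖ ^ 2) =ᵐ[μ] fun x => ‖chg D A' x (v.1.snd x)‖ ^ 2 := by
      filter_upwards [(hJ v).2] with x hx
      rw [hx]
    rw [integral_congr_ae h1]
    refine integral_mono_ae ((nsq_int _).congr h1) I1 (Eventually.of_forall fun x => ?_)
    show ‖chg D A' x (v.1.snd x)‖ ^ 2 ≤ ‖v.1.snd x‖ ^ 2 - τ * ten D S x (v.1.snd x) +
      η0 * |τ| * ‖v.1.snd x‖ ^ 2
    obtain ⟨l, hl⟩ := pc_ex hD x
    rw [chg_eq A' hl, ten_eq D S hl]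
    have hdet : (A' l (D.φ l x)).det ≠ 0 := hD'.det l _ (mem_T hl.1)
    have h2 := norm_cg_der (hD.det l _ (mem_T hl.1)) hdet hK hη' (hS l _)
      (hSb l _ (mem_T hl.1)) (hA' l _ (mem_T hl.1)) t1 t2 t3 (v.1.snd x)
    have h3 : 3 * η = η0 := by rw [hη]; ring
    rwa [h3] at h2
  have hbJ' : ∀ v, b φ v v + τ * k φ v v - η0 * |τ| * b φ v v ≤ b' φ' (J v) (J v) := by
    intro v
    rw [hbJ]
    refine bcomp (hb0 v) hη'.le (by rw [hη]; linarith) (k1 φ v).2 t4 (by nlinarith)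
      ((hp.fm _).nb v) (k2 φ v τ) ((hp.cmp _ φ' v).trans ?_)
    exact mul_le_mul_of_nonneg_right (Real.exp_le_exp.2 hφ') ((hp.fm _).nb v)
  obtain ⟨r1, r2⟩ := H τ t0 (a'.bilinearComp J J) ((b' φ').bilinearComp J J) haJ hbJ'
  rw [(k1 φ (e j)).1, σ1] at r1 r2
  exact csInf_le ⟨0, fun x hx => hx.1⟩ ⟨r1, HD_map J hJi r2⟩

end

end Pool.Agent.K4H46.QS
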